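import Pool.Agent.H580R3.BF.Faces
import Pool.Agent.NPC.Num

/-!
# The size of the output without a clique; cliques of the graph
-/

set_option autoImplicit false

namespace Pool.Agent.H580R3.BF

open Finset Pool.Agent.NPC

/-- the bound for the size of the output -/
def outB (R K : ℕ) : ℕ := (K * (R * (4 * R + 2) + 2) + 1) + (K * K * (8 * K + 4) + 1) + 1

theorem outB_mono {R K K' : ℕ} (h : K ≤ K') : outB R K ≤ outB R K' := by
  unfold outB
  have h1 : K * (R * (4 * R + 2) + 2) ≤ K' * (R * (4 * R + 2) + 2) := Nat.mul_le_mul_right _ h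
  have h2 : K * K * (8 * K + 4) ≤ K' * K' * (8 * K' + 4) :=
    Nat.mul_le_mul (Nat.mul_le_mul h h) (by omega)
  omega

theorem sz_nat_le' {i R : ℕ} (h : i ≤ R) : sz i ≤ 4 * R + 1 := by
  have h1 := sz_nat_le i
  have h2 : i.size ≤ i := Nat.size_le.2 Nat.lt_two_pow_self
  omega

theorem length_le_of_lt {l : List ℕ} {R : ℕ} (hl : l.Nodup) (h : ∀ i ∈ l, i < R) :
    l.length ≤ R := by
  rw [← List.toFinset_card_of_nodup hl]
  calc l.toFinset.card ≤ (range R).card :=
        card_le_card fun i hi => mem_range.2 (h i (List.mem_toFinset.1 hi))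
    _ = R := card_range R

theorem length_le_of_lt2 {l : List (ℕ × ℕ)} {K : ℕ} (hl : l.Nodup)
    (h : ∀ i ∈ l, i.1 < K ∧ i.2 < K) : l.length ≤ K * K := by
  rw [← List.toFinset_card_of_nodup hl]
  calc l.toFinset.card ≤ (range K ×ˢ range K).card :=
        card_le_card fun i hi => by
          have := h i (List.mem_toFinset.1 hi)
          exact mem_product.2 ⟨mem_range.2 this.1, mem_range.2 this.2⟩
    _ = K * K := by rw [card_product, card_range]

theorem sz_out_le {s : Sys} {o : Hasse} (ho : IsHasse s o) {K : ℕ} (hK : o.1.length ≤ K) :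
    sz o ≤ outB s.2.length K := by
  obtain ⟨h1, h2, h3, h4, h5⟩ := ho
  have a1 : ∀ l ∈ o.1, sz l ≤ s.2.length * (4 * s.2.length + 2) + 1 := by
    intro l hl
    have hlt : ∀ i ∈ l, i < s.2.length := by
      intro i hi
      obtain ⟨F, -, hF⟩ := (h3 {i | i ∈ l}).1 ⟨l, hl, rfl⟩
      have : i ∈ {i | i ∈ l} := hi
      rw [hF] at this
      exact tight_lt this
    have b1 := length_le_of_lt (h1 l hl) hlt
    have b2 := sz_le_length_mul l (4 * s.2.length + 1) fun i hi => sz_nat_le' (hlt i hi).le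
    have b3 : l.length * (4 * s.2.length + 1 + 1) ≤ s.2.length * (4 * s.2.length + 2) :=
      Nat.mul_le_mul_right _ b1
    omega
  have a2 := sz_le_length_mul o.1 _ a1
  have a3 : o.1.length * (s.2.length * (4 * s.2.length + 2) + 1 + 1) ≤
    K * (s.2.length * (4 * s.2.length + 2) + 2) := Nat.mul_le_mul_right _ hK
  have a4 : ∀ p ∈ o.2, p.1 < K ∧ p.2 < K := by
    rintro ⟨i, j⟩ hp
    obtain ⟨l, l', e1, e2, -⟩ := (h5 i j).1 hp
    have c1 := (List.getElem?_eq_some_iff.1 e1).1
    have c2 := (List.getElem?_eq_some_iff.1 e2).1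
    exact ⟨by omega, by omega⟩
  have a5 := length_le_of_lt2 h4 a4
  have a6 := sz_le_length_mul o.2 (8 * K + 3) (by
    rintro ⟨i, j⟩ hp
    obtain ⟨c1, c2⟩ := a4 _ hp
    have d1 := sz_nat_le' c1.le
    have d2 := sz_nat_le' c2.le
    simp only [sz_pair] at d1 d2 ⊢
    omega)
  have a7 : o.2.length * (8 * K + 3 + 1) ≤ K * K * (8 * K + 4) := Nat.mul_le_mul_right _ a5
  have a8 : sz o = sz o.1 + sz o.2 + 1 := sz_pair o.1 o.2
  unfold outB
  omega

/-! ### cliques -/

theorem adjB_iff (g : Gr) {u v : ℕ} (hu : u < g.1.length) (hv : v < g.1.length) :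
    adjB g.2 u v = true ↔ (graph g).Adj ⟨u, hu⟩ ⟨v, hv⟩ := by
  unfold adjB graph
  simp [Fin.ext_iff]

theorem not_noClq_iff (g : Gr) (k : ℕ) :
    ¬ NoClq g.1.length k g.2 ↔ ∃ S, (graph g).IsNClique k S := by
  classical
  unfold NoClq
  rw [not_not]
  constructor
  · rintro ⟨w, hw, hc⟩
    have hadj : ∀ i i' : Fin k, i < i' →
        (graph g).Adj ⟨w i, hw i i.2⟩ ⟨w i', hw i' i'.2⟩ := fun i i' h =>
      (adjB_iff g _ _).1 (hc i i' h i'.2)
    have hadj' : ∀ i i' : Fin k, i ≠ i' →
        (graph g).Adj ⟨w i, hw i i.2⟩ ⟨w i', hw i' i'.2⟩ := by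
      intro i i' h
      rcases lt_or_gt_of_ne h with h | h
      · exact hadj i i' h
      · exact (hadj i' i h).symm
    have hinj : Function.Injective (fun i : Fin k => (⟨w i, hw i i.2⟩ : Fin g.1.length)) := by
      intro i i' h
      by_contra hne
      exact (hadj' i i' hne).ne h
    refine ⟨univ.image (fun i : Fin k => (⟨w i, hw i i.2⟩ : Fin g.1.length)), ?_, ?_⟩
    · intro a ha b hb hab
      simp only [coe_image, coe_univ, Set.image_univ, Set.mem_range] at ha hb
      obtain ⟨i, rfl⟩ := ha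
      obtain ⟨i', rfl⟩ := hb
      exact hadj' i i' fun h => hab (by rw [h])
    · rw [card_image_of_injective _ hinj, card_univ, Fintype.card_fin]
  · rintro ⟨S, hS⟩
    have hcard := hS.card_eq
    refine ⟨fun i => if h : i < k then ((S.orderEmbOfFin hcard ⟨i, h⟩ : Fin g.1.length) : ℕ)
      else 0, ?_, ?_⟩
    · intro i hi
      simp only [dif_pos hi]
      exact Fin.is_lt _
    · intro i i' h h'
      simp only [dif_pos (h.trans h'), dif_pos h']
      refine (adjB_iff g (Fin.is_lt _) (Fin.is_lt _)).2 ?_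
      refine hS.isClique (orderEmbOfFin_mem S hcard ⟨i, h.trans h'⟩)
        (orderEmbOfFin_mem S hcard ⟨i', h'⟩) ?_
      intro he
      have := (S.orderEmbOfFin hcard).injective he
      simp only [Fin.mk.injEq] at this
      omega

end Pool.Agent.H580R3.BF
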