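import Pool.Agent.NPC.Defs

/-!
# Bounded faces of polyhedra given by inequalities: definitions
-/

set_option autoImplicit false

namespace Pool.Agent.H580R3.BF

open Turing Pool.Agent.NPC

/-- A system of linear inequalities with rational data: the dimension `d` and the list of the
inequalities `(a, β)`, each standing for `∑ j, a_j x_j ≤ β`. -/
abbrev Sys : Type := ℕ × List (List ℚ × ℚ)

/-- Every inequality has exactly `d` coefficients. -/
def WellFormed (s : Sys) : Prop := ∀ r ∈ s.2, r.1.length = s.1

/-- The value `∑ j, a_j x_j`. -/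
def val {d : ℕ} (a : List ℚ) (x : Fin d → ℝ) : ℝ := ∑ j : Fin d, ((a.getD j 0 : ℚ) : ℝ) * x j

/-- The polyhedron `{x | A x ≤ b}`. -/
def poly (s : Sys) : Set (Fin s.1 → ℝ) := {x | ∀ r ∈ s.2, val r.1 x ≤ (r.2 : ℝ)}

/-- Nonempty faces: the nonempty sets of the maximisers over the polyhedron of a linear
functional. -/
def IsFace (s : Sys) (F : Set (Fin s.1 → ℝ)) : Prop :=
  F.Nonempty ∧ ∃ c : Fin s.1 → ℝ,
    F = {x | x ∈ poly s ∧ ∀ y ∈ poly s, ∑ j, c j * y j ≤ ∑ j, c j * x j}

/-- Bounded nonempty faces. -/
def IsBFace (s : Sys) (F : Set (Fin s.1 → ℝ)) : Prop := IsFace s F ∧ Bornology.IsBounded F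

/-- The (indices of the) inequalities which are tight on a set. -/
def tight (s : Sys) (F : Set (Fin s.1 → ℝ)) : Set ℕ :=
  {i | ∃ r, s.2[i]? = some r ∧ ∀ x ∈ F, val r.1 x = (r.2 : ℝ)}

/-- A Hasse diagram: the list of the faces, each given by the list of its tight inequalities, and
the list of the covering relations, given by the positions of the two faces in the first list. -/
abbrev Hasse : Type := List (List ℕ) × List (ℕ × ℕ)

/-- `G` covers `F` in the partially ordered set of the bounded nonempty faces. -/
def Covers (s : Sys) (F G : Set (Fin s.1 → ℝ)) : Prop :=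
  F ⊂ G ∧ ¬ ∃ H, IsBFace s H ∧ F ⊂ H ∧ H ⊂ G

/-- `o` is the Hasse diagram of the bounded subcomplex: the first list contains the set of the
tight inequalities of each bounded nonempty face exactly once (and nothing else); the second list
contains exactly once each pair `(i, j)` such that face number `j` covers face number `i`. -/
def IsHasse (s : Sys) (o : Hasse) : Prop :=
  (∀ l ∈ o.1, l.Nodup) ∧ (o.1.map List.toFinset).Nodup ∧
  (∀ I : Set ℕ, (∃ l ∈ o.1, I = {i | i ∈ l}) ↔ ∃ F, IsBFace s F ∧ I = tight s F) ∧
  o.2.Nodup ∧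
  ∀ i j, (i, j) ∈ o.2 ↔ ∃ l l', o.1[i]? = some l ∧ o.1[j]? = some l' ∧
    ∃ F G, IsBFace s F ∧ IsBFace s G ∧ tight s F = {a | a ∈ l} ∧ tight s G = {a | a ∈ l'} ∧
      Covers s F G

/-- The polyhedron is unbounded. -/
def Unbounded (s : Sys) : Prop := ¬ Bornology.IsBounded (poly s)

/-- The polyhedron is pointed: it has a vertex (an extreme point). -/
def Pointed (s : Sys) : Prop := ∃ x, x ∈ (poly s).extremePoints ℝ

/-- The admissible inputs: the systems of inequalities of unbounded pointed polyhedra. -/
def Admissible (s : Sys) : Prop := WellFormed s ∧ Unbounded s ∧ Pointed s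

/-- The function `f` is computed on the inputs in `dom` by a Turing machine (in the sense of
Mathlib) whose running time is bounded by a polynomial in the combined length of the input and of
the output. -/
def PolyTotalTime {α β : Type} [TEnc α] [TEnc β] (dom : α → Prop) (f : α → β) : Prop :=
  ∃ (tm : FinTM2) (ι : tm.Γ tm.k₀ ≃ Bool) (κ : tm.Γ tm.k₁ ≃ Bool) (p : Polynomial ℕ),
    ∀ a, dom a → Nonempty (TM2OutputsInTime tm ((bits a).map ι.symm)
      (some ((bits (f a)).map κ.symm)) (p.eval ((bits a).length + (bits (f a)).length)))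

/-- There is an algorithm which, given the inequalities of an arbitrary unbounded pointed
polyhedron, outputs the Hasse diagram of its bounded subcomplex in polynomial total time. -/
def BoundedFacesInPolyTotalTime : Prop :=
  ∃ f : Sys → Hasse, PolyTotalTime Admissible f ∧ ∀ s, Admissible s → IsHasse s (f s)

/-- A finite graph: the list of its vertices `0, 1, …` (only the length counts) and a list of
edges. -/
abbrev Gr : Type := List Unit × List (ℕ × ℕ)

/-- The graph of an instance: distinct vertices are adjacent iff they form a listed pair. -/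
def graph (g : Gr) : SimpleGraph (Fin g.1.length) where
  Adj u v := u ≠ v ∧ (((u : ℕ), (v : ℕ)) ∈ g.2 ∨ ((v : ℕ), (u : ℕ)) ∈ g.2)
  symm := ⟨fun _ _ h => ⟨h.1.symm, h.2.symm⟩⟩
  loopless := ⟨fun _ h => h.1 rfl⟩

end Pool.Agent.H580R3.BF
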