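import Pool.Agent.H580R3.BF.Link

/-!
# The bounded faces of the polyhedron of a graph
-/

set_option autoImplicit false

namespace Pool.Agent.H580R3.BF

open Finset

theorem Geo.InP.congr {D : Geo.Data} {η : ℝ} {t t' σ σ' : ℕ → ℝ} (h : Geo.InP D η t σ)
    (ht : ∀ i < D.k, t i = t' i) (hσ : ∀ j < D.q, σ j = σ' j) : Geo.InP D η t' σ' := by
  obtain ⟨h1, h2, h3, h4⟩ := h
  refine ⟨h1, ?_, ?_, ?_⟩
  · rw [← h2]; exact sum_congr rfl fun i hi => (ht i (mem_range.1 hi)).symm
  · intro j hj; rw [← hσ j hj]; exact h3 j hj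
  · intro i hi u hu
    rw [← ht i hi]
    have : Geo.g D (i, u) η σ' = Geo.g D (i, u) η σ := by
      unfold Geo.g
      rw [sum_congr rfl fun j hj => by rw [← hσ j (mem_range.1 hj)]]
    rw [this]
    exact h4 i hi u hu

/-- a point with given coordinates -/
noncomputable def pt (k q : ℕ) (η : ℝ) (t σ : ℕ → ℝ) : Fin (1 + k + q) → ℝ := fun j =>
  if (j : ℕ) = 0 then η else if (j : ℕ) < 1 + k then t (j - 1) else σ (j - 1 - k)

theorem X_pt_zero {k q : ℕ} (η : ℝ) (t σ : ℕ → ℝ) : X (pt k q η t σ) 0 = η := by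
  unfold X pt; rw [dif_pos (by omega)]; simp

theorem X_pt_t {k q : ℕ} (η : ℝ) (t σ : ℕ → ℝ) {i : ℕ} (hi : i < k) :
    X (pt k q η t σ) (1 + i) = t i := by
  unfold X pt
  rw [dif_pos (by omega)]
  simp only
  rw [if_neg (by omega), if_pos (by omega), Nat.add_sub_cancel_left]

theorem X_pt_s {k q : ℕ} (η : ℝ) (t σ : ℕ → ℝ) {j : ℕ} (hj : j < q) :
    X (pt k q η t σ) (1 + k + j) = σ j := by
  unfold X pt
  rw [dif_pos (by omega)]
  simp only
  rw [if_neg (by omega), if_neg (by omega)]
  congr 1; omega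

theorem X_comb {d : ℕ} (p x : Fin d → ℝ) (a : ℝ) (j : ℕ) :
    X (fun j => p j + a * (x j - p j)) j = X p j + a * (X x j - X p j) := by
  unfold X
  split_ifs
  · rfl
  · simp

theorem X_coe {d : ℕ} (x : Fin d → ℝ) (j : Fin d) : X x j = x j := by
  unfold X; rw [dif_pos j.2]

variable {n k : ℕ} {E : List (ℕ × ℕ)} (hk : 2 ≤ k) (hn : 1 ≤ n)

theorem pt_mem {η : ℝ} {t σ : ℕ → ℝ} (h : Geo.InP (data n k E hk hn) η t σ) :
    pt k (confl n k E).length η t σ ∈ poly (sys n k E) := by
  rw [mem_poly_iff hk hn, X_pt_zero]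
  exact h.congr (fun i hi => (X_pt_t _ _ _ hi).symm) (fun j hj => (X_pt_s _ _ _ hj).symm)

theorem sys_wf (n k : ℕ) (E : List (ℕ × ℕ)) : WellFormed (sys n k E) := by
  intro r hr
  have hr : r ∈ rows n k (confl n k E) := hr
  simp only [rows, List.mem_cons, List.mem_append, List.mem_map, List.mem_range,
    List.mem_flatMap] at hr
  rcases hr with rfl | rfl | rfl | ⟨j, hj, rfl⟩ | ⟨j, hj, rfl⟩ | ⟨i, hi, u, hu, rfl⟩ <;>
    simp [rEta, rSum, rSum', rPos, rNeg, rOpt, mk] <;> omega

include hk hn in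
theorem sys_unbounded : Unbounded (sys n k E) := by
  intro hb
  obtain ⟨C, hC⟩ := hb.exists_norm_le
  have h1 := hC _ (pt_mem hk hn (Geo.up_mem (data n k E hk hn) (|C| + 1) (by positivity)))
  have h2 := norm_le_pi_norm (pt k (confl n k E).length (|C| + 1) (fun _ => 1) (fun _ => 0))
    ⟨0, by omega⟩
  have h3 : pt k (confl n k E).length (|C| + 1) (fun _ => 1) (fun _ => 0) ⟨0, by omega⟩ =
    |C| + 1 := by simp [pt]
  rw [h3, Real.norm_of_nonneg (by positivity)] at h2
  have h4 : |C| + 1 ≤ C := h2.trans h1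
  have := le_abs_self C
  linarith

include hk hn in
theorem sys_pointed : Pointed (sys n k E) := by
  set D := data n k E hk hn with hD
  refine ⟨_, mem_extremePoints.2 ⟨pt_mem hk hn (Geo.base_mem D), ?_⟩⟩
  intro x hx y hy hxy
  rw [mem_poly_iff hk hn] at hx hy
  obtain ⟨a, b, ha, hb, hab, hz⟩ := hxy
  have hz' : ∀ j, a * X x j + b * X y j = X (pt k (confl n k E).length 0
      (fun i => if i = 0 then ((data n k E hk hn).k : ℝ) else 0) (fun _ => 0)) j := by
    intro j
    rw [← hz]
    unfold X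
    split_ifs <;> simp
  obtain ⟨x1, x2, x3, x4⟩ := hx
  obtain ⟨y1, y2, y3, y4⟩ := hy
  have e0 := hz' 0
  rw [X_pt_zero] at e0
  have hx0 : X x 0 = 0 := by nlinarith
  have hy0 : X y 0 = 0 := by nlinarith
  have key : ∀ z : Fin (1 + k + (confl n k E).length) → ℝ,
      Geo.InP (data n k E hk hn) (X z 0) (fun i => X z (1 + i)) (fun j => X z (1 + k + j)) →
      X z 0 = 0 → (∀ j < (confl n k E).length, X z (1 + k + j) = 0) ∧ ∀ i < k, 0 ≤ X z (1 + i) := by
    rintro z ⟨z1, z2, z3, z4⟩ z0
    have h1 : ∀ j < (confl n k E).length, X z (1 + k + j) = 0 := by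
      intro j hj
      have := z3 j hj
      rw [z0] at this
      exact abs_eq_zero.1 (le_antisymm this (abs_nonneg _))
    refine ⟨h1, fun i hi => ?_⟩
    have := z4 i hi 0 hn
    refine le_trans (le_of_eq ?_) this
    unfold Geo.g
    rw [sum_eq_zero, z0]
    · simp
    · intro j hj
      simp only [h1 j (mem_range.1 hj), mul_zero]
  obtain ⟨xs, xt⟩ := key x ⟨x1, x2, x3, x4⟩ hx0
  obtain ⟨ys, yt⟩ := key y ⟨y1, y2, y3, y4⟩ hy0
  have ht : ∀ i < k, i ≠ 0 → X x (1 + i) = 0 ∧ X y (1 + i) = 0 := by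
    intro i hi hi0
    have := hz' (1 + i)
    rw [X_pt_t _ _ _ hi, if_neg hi0] at this
    have h1 := xt i hi
    have h2 := yt i hi
    constructor <;> nlinarith
  have hfin : ∀ z : Fin (1 + k + (confl n k E).length) → ℝ, X z 0 = 0 →
      (∀ j < (confl n k E).length, X z (1 + k + j) = 0) → (∀ i < k, i ≠ 0 → X z (1 + i) = 0) →
      ∑ i ∈ range (data n k E hk hn).k, X z (1 + i) = (data n k E hk hn).k →
      z = pt k (confl n k E).length 0
        (fun i => if i = 0 then ((data n k E hk hn).k : ℝ) else 0) (fun _ => 0) := by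
    intro z z0 zs zt zsum
    have hk0 : X z (1 + 0) = (data n k E hk hn).k := by
      rw [← zsum, sum_eq_single 0]
      · intro i hi hi0
        exact zt i (mem_range.1 hi) hi0
      · intro h
        exact absurd (mem_range.2 (by change 0 < k; omega)) h
    funext j
    rw [← X_coe z j, ← X_coe (pt _ _ _ _ _) j]
    by_cases h0 : (j : ℕ) = 0
    · rw [h0, z0, X_pt_zero]
    · by_cases h1 : (j : ℕ) < 1 + k
      · obtain ⟨i, hi⟩ : ∃ i, (j : ℕ) = 1 + i := ⟨j - 1, by omega⟩
        rw [hi, X_pt_t _ _ _ (by omega)]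
        by_cases hi0 : i = 0
        · rw [if_pos hi0, hi0]; exact hk0
        · rw [if_neg hi0]; exact zt i (by omega) hi0
      · obtain ⟨i, hi⟩ : ∃ i, (j : ℕ) = 1 + k + i := ⟨j - 1 - k, by omega⟩
        have := j.2
        rw [hi, X_pt_s _ _ _ (by omega)]
        exact zs i (by omega)
  exact ⟨hfin x hx0 xs (fun i hi h => (ht i hi h).1) x2,
    hfin y hy0 ys (fun i hi h => (ht i hi h).2) y2⟩

/-! ### no clique -/

/-- there is no clique of size `k`, as choices of one vertex for each group -/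
def NoClq (n k : ℕ) (E : List (ℕ × ℕ)) : Prop :=
  ¬ ∃ w : ℕ → ℕ, (∀ i < k, w i < n) ∧ ∀ i i', i < i' → i' < k → adjB E (w i) (w i') = true

include hk hn in
theorem bface_zero (hno : NoClq n k E) {F : Set (Fin (sys n k E).1 → ℝ)}
    (hF : IsBFace (sys n k E) F) {x : Fin (sys n k E).1 → ℝ} (hx : x ∈ F) : X x 0 = 0 := by
  obtain ⟨⟨-, c, hc⟩, hb⟩ := hF
  by_contra hne
  have hxF := hx
  rw [hc] at hx
  obtain ⟨hxP, hxmax⟩ := hx
  have hP := (mem_poly_iff hk hn x).1 hxP
  have h0 : 0 < X x 0 := lt_of_le_of_ne hP.1 (Ne.symm hne)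
  obtain ⟨t', ht'⟩ := Geo.ray (data n k E hk hn) (fun w hw hc => hno ⟨w, hw, hc⟩) hP
  set p : Fin (1 + k + (confl n k E).length) → ℝ :=
    pt k (confl n k E).length 0 t' (fun _ => 0) with hp
  have hy : ∀ a : ℝ, 0 ≤ a → (fun j => p j + a * (x j - p j)) ∈ poly (sys n k E) := by
    intro a ha
    rw [mem_poly_iff hk hn, X_comb, hp, X_pt_zero]
    have := ht' a ha
    have e : (0 : ℝ) + a * (X x 0 - 0) = a * X x 0 := by ring
    rw [e]
    refine this.congr ?_ ?_
    · intro i hi
      have hi : i < k := hi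
      simp only [X_comb, X_pt_t _ _ _ hi]
    · intro j hj
      have hj : j < (confl n k E).length := hj
      simp only [X_comb, X_pt_s _ _ _ hj]; ring
  have hφ : ∀ a : ℝ, ∑ j, c j * (p j + a * (x j - p j)) =
      ∑ j, c j * p j + a * (∑ j, c j * x j - ∑ j, c j * p j) := by
    intro a
    rw [← sum_sub_distrib, mul_sum, ← sum_add_distrib]
    exact sum_congr rfl fun j _ => by ring
  have h1 := hxmax _ (hy 0 le_rfl)
  have h2 := hxmax _ (hy 2 (by norm_num))
  rw [hφ] at h1 h2
  have h3 : ∑ j, c j * p j = ∑ j, c j * x j := by linarith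
  obtain ⟨C, hC⟩ := hb.exists_norm_le
  have h4 := hC (fun j => p j + ((|C| + 1) / X x 0) * (x j - p j)) (by
    rw [hc]
    refine ⟨hy _ (by positivity), fun y hy' => ?_⟩
    rw [hφ, h3, sub_self, mul_zero, add_zero]
    exact hxmax y hy')
  have h5 := norm_le_pi_norm (fun j => p j + ((|C| + 1) / X x 0) * (x j - p j))
    (⟨0, by change 0 < 1 + k + _; omega⟩ : Fin (sys n k E).1)
  have h6 : p (⟨0, by omega⟩ : Fin (1 + k + (confl n k E).length)) + ((|C| + 1) / X x 0) *
      (x (⟨0, by omega⟩ : Fin (1 + k + (confl n k E).length)) -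
        p (⟨0, by omega⟩ : Fin (1 + k + (confl n k E).length))) = |C| + 1 := by
    have e1 : p (⟨0, by omega⟩ : Fin (1 + k + (confl n k E).length)) = 0 := by simp [hp, pt]
    have e2 : x (⟨0, by omega⟩ : Fin (1 + k + (confl n k E).length)) = X x 0 :=
      (X_coe x (⟨0, by omega⟩ : Fin (1 + k + (confl n k E).length))).symm
    rw [e1, e2]
    field_simp
    ring
  rw [h6, Real.norm_of_nonneg (by positivity)] at h5
  have h7 : |C| + 1 ≤ C := h5.trans h4
  have := le_abs_self C
  linarith

open Classical in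
/-- the groups whose `t`-variable vanishes on a face -/
noncomputable def zs (n k : ℕ) (E : List (ℕ × ℕ)) (F : Set (Fin (sys n k E).1 → ℝ)) : Finset ℕ :=
  (range k).filter (fun i => ∀ x ∈ F, X x (1 + i) = 0)

theorem face_sub {s : Sys} {F : Set (Fin s.1 → ℝ)} (hF : IsFace s F) : F ⊆ poly s := by
  obtain ⟨-, c, rfl⟩ := hF
  exact fun x hx => hx.1

include hk hn in
/-- without a clique, the tight inequalities of a bounded face are determined by `zs` -/
theorem tight_iff (hno : NoClq n k E) {F F' : Set (Fin (sys n k E).1 → ℝ)}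
    (hF : IsBFace (sys n k E) F) (hF' : IsBFace (sys n k E) F') (h : zs n k E F = zs n k E F') :
    tight (sys n k E) F ⊆ tight (sys n k E) F' := by
  classical
  rintro i ⟨r, hr, hr'⟩
  refine ⟨r, hr, fun x hx => ?_⟩
  have hmem : r ∈ rows n k (confl n k E) := List.mem_of_getElem? hr
  have hx0 := bface_zero hk hn hno hF' hx
  have hxP := (mem_poly_iff hk hn x).1 (face_sub hF'.1 hx)
  have hxS : ∑ i ∈ range k, X x (1 + i) = (k : ℝ) := hxP.2.1
  have hs : ∀ j < (confl n k E).length, X x (1 + k + j) = 0 := by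
    intro j hj
    have := hxP.2.2.1 j hj
    rw [hx0] at this
    exact abs_eq_zero.1 (le_antisymm this (abs_nonneg _))
  simp only [rows, List.mem_cons, List.mem_append, List.mem_map, List.mem_range,
    List.mem_flatMap] at hmem
  have hg : ∀ (y : Fin (sys n k E).1 → ℝ) (p : ℕ × ℕ), X y 0 = 0 →
      (∀ j < (confl n k E).length, X y (1 + k + j) = 0) →
      Geo.g (data n k E hk hn) p (X y 0) (fun j => X y (1 + k + j)) = 0 := by
    intro y p hy hys
    unfold Geo.g
    rw [sum_eq_zero, hy]
    · simp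
    · intro j hj
      simp only [hys j (mem_range.1 hj), mul_zero]
  rcases hmem with rfl | rfl | rfl | ⟨j, hj, rfl⟩ | ⟨j, hj, rfl⟩ | ⟨i, hi, u, hu, rfl⟩
  · refine (val_rEta x).trans ?_
    rw [hx0]; simp [rEta, mk]
  · refine (val_rSum x).trans ?_
    rw [rSum_snd, hxS]; push_cast; rfl
  · refine (val_rSum' x).trans ?_
    rw [rSum'_snd, hxS]; push_cast; rfl
  · refine (val_rPos hj x).trans ?_
    rw [hx0, hs j hj]; simp [rPos, mk]
  · refine (val_rNeg hj x).trans ?_
    rw [hx0, hs j hj]; simp [rNeg, mk]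
  · refine (val_rOpt hk hn hi hu x).trans ?_
    rw [hg x _ hx0 hs]
    have hi1 : i ∈ zs n k E F := by
      unfold zs
      refine mem_filter.2 ⟨mem_range.2 hi, fun y hy => ?_⟩
      have h1 := hr' y hy
      have h2 := val_rOpt (E := E) hk hn hi hu y
      have hy0 := bface_zero hk hn hno hF hy
      have hyP := (mem_poly_iff hk hn y).1 (face_sub hF.1 hy)
      have hys : ∀ j < (confl n k E).length, X y (1 + k + j) = 0 := by
        intro j hj
        have := hyP.2.2.1 j hj
        rw [hy0] at this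
        exact abs_eq_zero.1 (le_antisymm this (abs_nonneg _))
      rw [hg y _ hy0 hys] at h2
      have h3 : val (rOpt k (confl n k E) (i, u)).1 y = 0 := by
        rw [h1]; simp [rOpt, mk]
      have h4 : (0 : ℝ) = 0 - X y (1 + i) := h3.symm.trans h2
      linarith
    rw [h] at hi1
    unfold zs at hi1
    have hi2 := (mem_filter.1 hi1).2 x hx
    rw [hi2]
    simp [rOpt, mk]

include hk hn in
theorem zero_mem_tight (hno : NoClq n k E) {F : Set (Fin (sys n k E).1 → ℝ)}
    (hF : IsBFace (sys n k E) F) : 0 ∈ tight (sys n k E) F := by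
  refine ⟨rEta k (confl n k E).length, rfl, fun x hx => ?_⟩
  refine (val_rEta x).trans ?_
  rw [bface_zero hk hn hno hF hx]; simp [rEta, mk]

theorem tight_lt {s : Sys} {F : Set (Fin s.1 → ℝ)} {i : ℕ} (h : i ∈ tight s F) :
    i < s.2.length := by
  obtain ⟨r, hr, -⟩ := h
  exact (List.getElem?_eq_some_iff.1 hr).1

include hk hn in
/-- **Without a clique there are at most `2 ^ k` bounded faces.** -/
theorem length_le (hno : NoClq n k E) {o : Hasse} (ho : IsHasse (sys n k E) o) :
    o.1.length ≤ 2 ^ k := by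
  classical
  obtain ⟨h1, h2, h3, -, -⟩ := ho
  have h4 : ∀ l ∈ o.1, ∃ F, IsBFace (sys n k E) F ∧ {i | i ∈ l} = tight (sys n k E) F :=
    fun l hl => (h3 {i | i ∈ l}).1 ⟨l, hl, rfl⟩
  choose! Fc hF1 hF2 using h4
  have h5 : (o.1.map List.toFinset).toFinset.card = o.1.length := by
    rw [List.toFinset_card_of_nodup h2, List.length_map]
  have h6 : o.1.toFinset.card = o.1.length := by
    rw [List.toFinset_card_of_nodup (List.Nodup.of_map _ h2)]
  rw [← h6]
  calc o.1.toFinset.card ≤ ((range k).powerset).card := by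
        refine card_le_card_of_injOn (fun l => zs n k E (Fc l)) ?_ ?_
        · intro l _
          simp only [coe_powerset, Set.mem_preimage, Set.mem_powerset_iff, coe_subset]
          exact filter_subset _ _
        · intro l hl l' hl' he
          simp only [List.coe_toFinset, Set.mem_ofPred_eq] at hl hl'
          have e1 : tight (sys n k E) (Fc l) = tight (sys n k E) (Fc l') :=
            Set.Subset.antisymm (tight_iff hk hn hno (hF1 l hl) (hF1 l' hl') he)
              (tight_iff hk hn hno (hF1 l' hl') (hF1 l hl) he.symm)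
          rw [← hF2 l hl, ← hF2 l' hl'] at e1
          have e2 : l.toFinset = l'.toFinset := by
            ext a
            rw [List.mem_toFinset, List.mem_toFinset]
            exact Set.ext_iff.1 e1 a
          exact List.inj_on_of_nodup_map h2 hl hl' e2
    _ = 2 ^ k := by rw [card_powerset, card_range]

/-! ### a clique -/

theorem sum_val (s : Sys) (R : List (List ℚ × ℚ)) (y : Fin s.1 → ℝ) :
    ∑ j, (R.map fun r => ((r.1.getD j 0 : ℚ) : ℝ)).sum * y j = (R.map fun r => val r.1 y).sum := by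
  induction R with
  | nil => simp
  | cons r R ih =>
    simp only [List.map_cons, List.sum_cons]
    rw [← ih, val, ← sum_add_distrib]
    exact sum_congr rfl fun j _ => by ring

theorem all_tight {α : Type} (R : List α) (a b : α → ℝ) (h : ∀ r ∈ R, a r ≤ b r)
    (h' : (R.map b).sum ≤ (R.map a).sum) : ∀ r ∈ R, a r = b r := by
  induction R with
  | nil => simp
  | cons r R ih =>
    simp only [List.map_cons, List.sum_cons] at h'
    have h1 : (R.map a).sum ≤ (R.map b).sum := List.sum_le_sum fun r hr =>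
      h r (List.mem_cons_of_mem _ hr)
    have h2 := h r List.mem_cons_self
    intro r' hr'
    rcases List.mem_cons.1 hr' with rfl | hr'
    · linarith
    · exact ih (fun r hr => h r (List.mem_cons_of_mem _ hr)) (by linarith) r' hr'

theorem isFace_of_tight (s : Sys) (R : List (List ℚ × ℚ)) (hR : ∀ r ∈ R, r ∈ s.2)
    (hne : ∃ x ∈ poly s, ∀ r ∈ R, val r.1 x = (r.2 : ℝ)) :
    IsFace s {x | x ∈ poly s ∧ ∀ r ∈ R, val r.1 x = (r.2 : ℝ)} := by
  obtain ⟨x₀, hx₀, hx₀'⟩ := hne
  refine ⟨⟨x₀, hx₀, hx₀'⟩, fun j => (R.map fun r => ((r.1.getD j 0 : ℚ) : ℝ)).sum, ?_⟩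
  ext x
  simp only [Set.mem_ofPred_eq, sum_val]
  have hle : ∀ y ∈ poly s, (R.map fun r => val r.1 y).sum ≤ (R.map fun r => ((r.2 : ℚ) : ℝ)).sum :=
    fun y hy => List.sum_le_sum fun r hr => hy r (hR r hr)
  constructor
  · rintro ⟨hx, hx'⟩
    refine ⟨hx, fun y hy => (hle y hy).trans (le_of_eq ?_)⟩
    congr 1
    exact List.map_congr_left fun r hr => (hx' r hr).symm
  · rintro ⟨hx, hx'⟩
    refine ⟨hx, all_tight R _ _ (fun r hr => hx r (hR r hr)) ?_⟩
    refine le_trans (le_of_eq ?_) (hx' x₀ hx₀)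
    congr 1
    exact List.map_congr_left fun r hr => (hx₀' r hr).symm

include hk hn in
/-- **A clique gives a bounded face on which the first inequality is not tight.** -/
theorem exists_bface (hno : ¬ NoClq n k E) :
    ∃ F, IsBFace (sys n k E) F ∧ 0 ∉ tight (sys n k E) F := by
  classical
  unfold NoClq at hno
  rw [not_not] at hno
  obtain ⟨w, hw, hc⟩ := hno
  set D := data n k E hk hn with hD
  have hcl : Geo.Clq D w := hc
  set x₀ : Fin (sys n k E).1 → ℝ := pt k (confl n k E).length 1 (fun _ => 1) (Geo.sg D w) with hx₀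
  have hx₀P : x₀ ∈ poly (sys n k E) := pt_mem hk hn (Geo.star_mem D w)
  set R := (rows n k (confl n k E)).filter (fun r => decide (val r.1 x₀ = (r.2 : ℝ))) with hR
  have hRm : ∀ r, r ∈ R ↔ r ∈ rows n k (confl n k E) ∧ val r.1 x₀ = (r.2 : ℝ) := by
    intro r; rw [hR, List.mem_filter, decide_eq_true_eq]
  have hface := isFace_of_tight (sys n k E) R (fun r hr => ((hRm r).1 hr).1)
    ⟨x₀, hx₀P, fun r hr => ((hRm r).1 hr).2⟩
  refine ⟨_, ⟨hface, ?_⟩, ?_⟩
  · rw [isBounded_iff_forall_norm_le]
    refine ⟨1, fun x hx => ?_⟩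
    obtain ⟨hxP, hxR⟩ := hx
    have hP := (mem_poly_iff hk hn x).1 hxP
    have hg1 : ∀ i < D.k, Geo.g D (i, w i) 1 (Geo.sg D w) = 1 →
        Geo.g D (i, w i) (X x 0) (fun j => X x (1 + k + j)) = X x (1 + i) := by
      intro i hi h1
      have hr : rOpt k (confl n k E) (i, w i) ∈ R := by
        rw [hRm]
        constructor
        · simp only [rows, List.mem_cons, List.mem_append, List.mem_map, List.mem_range,
            List.mem_flatMap]
          exact Or.inr (Or.inr (Or.inr (Or.inr (Or.inr ⟨i, hi, w i, hw i hi, rfl⟩))))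
        · refine (val_rOpt hk hn hi (hw i hi) x₀).trans ?_
          have hi' : i < k := hi
          rw [hx₀, X_pt_zero, X_pt_t _ _ _ hi']
          have : Geo.g (data n k E hk hn) (i, w i) 1
              (fun j => X (pt k (confl n k E).length 1 (fun _ => 1) (Geo.sg D w)) (1 + k + j)) =
              Geo.g D (i, w i) 1 (Geo.sg D w) := by
            unfold Geo.g
            congr 2
            refine sum_congr rfl fun j hj => ?_
            have hj' : j < (confl n k E).length := mem_range.1 hj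
            simp only [X_pt_s _ _ _ hj']
            rfl
          rw [this, h1]
          simp [rOpt, mk]
      have h2 := hxR _ hr
      have h3 := val_rOpt (E := E) hk hn hi (hw i hi) x
      have h4 : val (rOpt k (confl n k E) (i, w i)).1 x = 0 := by
        rw [h2]; simp [rOpt, mk]
      have h5 : (0 : ℝ) = Geo.g D (i, w i) (X x 0) (fun j => X x (1 + k + j)) - X x (1 + i) :=
        h4.symm.trans h3
      linarith
    have hs1 : ∀ j < D.q, Geo.sg D w j = 1 → X x (1 + k + j) = X x 0 := by
      intro j hj h1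
      have hr : rPos k (confl n k E).length j ∈ R := by
        rw [hRm]
        constructor
        · simp only [rows, List.mem_cons, List.mem_append, List.mem_map, List.mem_range]
          exact Or.inr (Or.inr (Or.inr (Or.inl ⟨j, hj, rfl⟩)))
        · have hj' : j < (confl n k E).length := hj
          refine (val_rPos hj' x₀).trans ?_
          rw [hx₀, X_pt_zero, X_pt_s _ _ _ hj', h1]
          simp [rPos, mk]
      have h2 := hxR _ hr
      have h3 := val_rPos (k := k) (q := (confl n k E).length) hj x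
      have h4 : val (rPos k (confl n k E).length j).1 x = 0 := by
        rw [h2]; simp [rPos, mk]
      have h5 : (0 : ℝ) = X x (1 + k + j) - X x 0 := h4.symm.trans h3
      linarith
    have hs2 : ∀ j < D.q, Geo.sg D w j = -1 → -X x (1 + k + j) = X x 0 := by
      intro j hj h1
      have hr : rNeg k (confl n k E).length j ∈ R := by
        rw [hRm]
        constructor
        · simp only [rows, List.mem_cons, List.mem_append, List.mem_map, List.mem_range]
          exact Or.inr (Or.inr (Or.inr (Or.inr (Or.inl ⟨j, hj, rfl⟩))))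
        · have hj' : j < (confl n k E).length := hj
          refine (val_rNeg hj' x₀).trans ?_
          rw [hx₀, X_pt_zero, X_pt_s _ _ _ hj', h1]
          simp [rNeg, mk]
      have h2 := hxR _ hr
      have h3 := val_rNeg (k := k) (q := (confl n k E).length) hj x
      have h4 : val (rNeg k (confl n k E).length j).1 x = 0 := by
        rw [h2]; simp [rNeg, mk]
      have h5 : (0 : ℝ) = -X x (1 + k + j) - X x 0 := h4.symm.trans h3
      linarith
    obtain ⟨e1, e2⟩ := Geo.face_eta D hcl hP hg1 hs1 hs2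
    refine (pi_norm_le_iff_of_nonneg zero_le_one).2 fun j => ?_
    have hj : (j : ℕ) < 1 + k + (confl n k E).length := j.2
    rw [← X_coe x j, Real.norm_eq_abs]
    by_cases h0 : (j : ℕ) = 0
    · rw [h0, e1]; simp
    · by_cases h1 : (j : ℕ) < 1 + k
      · obtain ⟨i, hi⟩ : ∃ i, (j : ℕ) = 1 + i := ⟨j - 1, by omega⟩
        rw [hi, e2 i (by change i < k; omega)]; simp
      · obtain ⟨i, hi⟩ : ∃ i, (j : ℕ) = 1 + k + i := ⟨j - 1 - k, by omega⟩
        rw [hi]
        have := hP.2.2.1 i (by change i < (confl n k E).length; omega)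
        rwa [e1] at this
  · rintro ⟨r, hr, hr'⟩
    have hr0 : r = rEta k (confl n k E).length := by
      have : (sys n k E).2[0]? = some (rEta k (confl n k E).length) := rfl
      rw [this] at hr
      exact (Option.some.inj hr).symm
    have h1 := hr' x₀ ⟨hx₀P, fun r hr => ((hRm r).1 hr).2⟩
    subst hr0
    have h2 := (val_rEta (k := k) (q := (confl n k E).length) x₀)
    rw [hx₀, X_pt_zero] at h2
    have h3 : val (rEta k (confl n k E).length).1 x₀ = 0 := by
      rw [h1]; simp [rEta, mk]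
    have h4 : (0 : ℝ) = -1 := h3.symm.trans h2
    norm_num at h4

end Pool.Agent.H580R3.BF
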