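import Pool.Agent.H580R3.BF.Main

/-!
# The algorithm for cliques, without a padding
-/

set_option autoImplicit false

namespace Pool.Agent.H580R3.BF

open Turing Pool.Agent.NPC

/-- A Turing machine (in the sense of Mathlib) computes `f` within the time bound `N`. -/
def TimeBound {α β : Type} [TEnc α] [TEnc β] (f : α → β) (N : α → ℕ) : Prop :=
  ∃ (tm : FinTM2) (ι : tm.Γ tm.k₀ ≃ Bool) (κ : tm.Γ tm.k₁ ≃ Bool),
    ∀ a, Nonempty (TM2OutputsInTime tm ((bits a).map ι.symm)
      (some ((bits (f a)).map κ.symm)) (N a))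

theorem timeBound_of_runs {α β : Type} [TEnc α] [TEnc β] {f : α → β} {N : α → ℕ} {c : Cmd ℕ}
    (h : ∀ a, Runs c (inp (bits a)) (inp (bits (f a))) (N a)) :
    TimeBound f (fun a => N a + 1) := by
  have key : ∀ a, ∃ t, t ≤ N a + 1 ∧
      Nonempty (TM2OutputsInTime (c.map (Fin.ofNat (c.bd + 1))).toTM (bits a)
        (some (bits (f a))) t) := by
    intro x
    obtain ⟨t, ht, hr⟩ := h x
    have h1 := hr.restrict (n := c.bd) (by omega)
    refine ⟨t + 1, by simpa using ht, toTM_outputs ?_⟩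
    convert! h1 using 1
    · funext i
      by_cases hi : i = 0
      · subst hi; simp [inp]
      · have : (i : ℕ) ≠ 0 := fun h => hi (Fin.ext h)
        simp [inp, hi, this]
    · funext i
      by_cases hi : i = 0
      · subst hi; simp [inp]
      · have : (i : ℕ) ≠ 0 := fun h => hi (Fin.ext h)
        simp [inp, hi, this]
  refine ⟨(c.map (Fin.ofNat (c.bd + 1))).toTM, Equiv.refl Bool, Equiv.refl Bool, fun a => ?_⟩
  obtain ⟨t, ht, ⟨hm⟩⟩ := key a
  exact ⟨outputs_conv (List.map_id _).symm (List.map_id _).symm ht hm⟩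

/-- doubling of the padding -/
def dbl (x : Inst) : Inst := (x.1, x.2.1, x.2.2 ++ x.2.2)

theorem poly_dbl : NPC.Poly dbl :=
  NPC.Poly.pair (NPC.Poly.fst NPC.Poly.id) (NPC.Poly.pair (NPC.Poly.fst (NPC.Poly.snd NPC.Poly.id))
    (NPC.Poly.append (NPC.Poly.snd (NPC.Poly.snd NPC.Poly.id))
      (NPC.Poly.snd (NPC.Poly.snd NPC.Poly.id))))

theorem dbl_iterate (g : Gr) (u : List Unit) (j : ℕ) :
    dbl^[j] (g, u, [()]) = (g, u, List.replicate (2 ^ j) ()) := by
  induction j with
  | zero => rfl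
  | succ j ih =>
    rw [Function.iterate_succ_apply', ih]
    unfold dbl
    simp only [List.replicate_append_replicate]
    rw [pow_succ]
    congr 3
    omega

theorem sz_unit_list (u : List Unit) : sz u = 2 * u.length + 1 := by
  induction u with
  | nil => rfl
  | cons a u ih => rw [sz_list_cons, ih, List.length_cons]; simp; omega

/-- The `k`-Clique problem is decided in time polynomial in the size of the instance plus
`2 ^ k`, with `k` given in unary. -/
theorem clique_time (H : BoundedFacesInPolyTotalTime) :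
    ∃ (D : Gr × List Unit → Bool) (p : Polynomial ℕ),
      (∀ x, D x = true ↔ ∃ S, (graph x.1).IsNClique x.2.length S) ∧
      TimeBound D (fun x => p.eval ((bits x).length + 2 ^ x.2.length)) := by
  obtain ⟨D, ⟨cD, pD, hD⟩, hD'⟩ := exists_alg H
  obtain ⟨cd, pd, hd⟩ := poly_dbl
  have hn : PC (bits : Gr × List Unit → List Bool) T.enc (fun x => toT x.2) :=
    NPC.Poly.toT' (NPC.Poly.snd NPC.Poly.id)
  have hx : PC (bits : Gr × List Unit → List Bool) T.enc
      (fun x => toT ((x.1, x.2, [()]) : Inst)) :=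
    NPC.Poly.toT' (NPC.Poly.pair (NPC.Poly.fst NPC.Poly.id)
      (NPC.Poly.pair (NPC.Poly.snd NPC.Poly.id) (NPC.Poly.const [()])))
  obtain ⟨c1, p1, h1⟩ := hn.node hx
  have hsz : ∀ (g : Gr) (u : List Unit) (j : ℕ), j ≤ 2 * u.length + 1 →
      (bits (dbl^[j] (g, u, [()]))).length ≤ sz (g, u) + 4 * (2 ^ u.length) ^ 2 + 2 := by
    intro g u j hj
    rw [dbl_iterate]
    change sz (g, u, List.replicate (2 ^ j) ()) ≤ _
    have e1 : sz (g, u, List.replicate (2 ^ j) ()) = sz g + (sz u + (2 * 2 ^ j + 1) + 1) + 1 := by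
      have e0 := sz_unit_list (List.replicate (2 ^ j) ())
      rw [List.length_replicate] at e0
      rw [sz_pair g, sz_pair u, e0]
    have e2 : sz (g, u) = sz g + sz u + 1 := sz_pair _ _
    have e3 : 2 * 2 ^ j ≤ 4 * (2 ^ u.length) ^ 2 := by
      calc 2 * 2 ^ j = 2 ^ (j + 1) := by rw [pow_succ]; ring
        _ ≤ 2 ^ (2 * u.length + 2) := Nat.pow_le_pow_right (by norm_num) (by omega)
        _ = 4 * (2 ^ u.length) ^ 2 := by rw [pow_add, pow_mul']; ring
    omega
  let b : Polynomial ℕ := Polynomial.X + Polynomial.C 4 * Polynomial.X ^ 2 + Polynomial.C 2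
  have hb : ∀ x : Gr × List Unit, sz x + 4 * (2 ^ x.2.length) ^ 2 + 2 ≤
      b.eval (sz x + 2 ^ x.2.length) := by
    intro x
    simp only [b, Polynomial.eval_add, Polynomial.eval_mul, Polynomial.eval_C,
      Polynomial.eval_pow, Polynomial.eval_X]
    have : (2 ^ x.2.length) ^ 2 ≤ (sz x + 2 ^ x.2.length) ^ 2 :=
      Nat.pow_le_pow_left (Nat.le_add_left _ _) 2
    have h2 : 0 < 2 ^ x.2.length := by positivity
    linarith
  refine ⟨fun x => D (dbl^[2 * x.2.length + 1] (x.1, x.2, [()])),
    p1 + Polynomial.C 5 * Polynomial.X + Polynomial.C 3 +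
      ((pd.comp b + Polynomial.C 2) * Polynomial.X + Polynomial.C 1) + pD.comp b +
        Polynomial.C 10, ?_, ?_⟩
  · rintro ⟨g, u⟩
    simp only
    rw [hD']
    · rw [dbl_iterate]
      rfl
    · rw [dbl_iterate]
      simp only [kk, List.length_replicate]
      exact Nat.pow_le_pow_right (by norm_num) (by omega)
  · have hle : ∀ x : Gr × List Unit, sz x.2 ≤ sz x := by
      rintro ⟨g, u⟩
      have := sz_pair g u
      change sz u ≤ sz (g, u)
      omega
    have hfin : ∀ x : Gr × List Unit, Runs (Cmd.seq c1 (Cmd.seq (Cmd.seq split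
        (Cmd.loop 1 (Cmd.seq (Cmd.pop 1) (ev cd)))) cD)) (inp (bits x))
        (inp (bits (D (dbl^[2 * x.2.length + 1] (x.1, x.2, [()])))))
        (p1.eval (sz x) + ((5 * sz x.2 + 3 + ((pd.eval (b.eval (sz x + 2 ^ x.2.length)) + 2) *
          sz x.2 + 1)) + pD.eval (b.eval (sz x + 2 ^ x.2.length)))) := by
      rintro ⟨g, u⟩
      have e1 := h1 (g, u)
      have e2 := split_runs (toT u) (toT ((g, u, [()]) : Inst))
      have elen : (toT u).enc.reverse.length = 2 * u.length + 1 := by
        rw [List.length_reverse]; exact sz_unit_list u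
      have e3 := loop_runs (eb := (bits : Inst → List Bool)) hd
        (sz (g, u) + 4 * (2 ^ u.length) ^ 2 + 2) (toT u).enc.reverse (g, u, [()]) (by
          intro k hk
          exact hsz g u k (by omega))
      have e4 := hD (dbl^[2 * u.length + 1] (g, u, [()]))
      rw [elen] at e3
      rw [inp_eq_st, inp_eq_st] at e1 e4
      rw [inp_eq_st, inp_eq_st]
      have e5 := hb (g, u)
      simp only at e5
      refine (e1.seq ((e2.seq e3).seq e4)).mono ?_
      have e6 : pd.eval (sz (g, u) + 4 * (2 ^ u.length) ^ 2 + 2) ≤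
        pd.eval (b.eval (sz (g, u) + 2 ^ u.length)) := eval_mono pd e5
      have e7 : pD.eval (bits (dbl^[2 * u.length + 1] (g, u, [()]))).length ≤
        pD.eval (b.eval (sz (g, u) + 2 ^ u.length)) := eval_mono pD ((hsz g u _ le_rfl).trans e5)
      have e8 : sz u = 2 * u.length + 1 := sz_unit_list u
      have e9 : (toT u).size = 2 * u.length + 1 := e8
      have e10 : (pd.eval (sz (g, u) + 4 * (2 ^ u.length) ^ 2 + 2) + 2) * (2 * u.length + 1) ≤
        (pd.eval (b.eval (sz (g, u) + 2 ^ u.length)) + 2) * (2 * u.length + 1) :=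
        Nat.mul_le_mul_right _ (by omega)
      simp only [e8, e9]
      change p1.eval (sz (g, u)) + _ ≤ _
      omega
    obtain ⟨tm, ι, κ, htm⟩ := timeBound_of_runs hfin
    refine ⟨tm, ι, κ, fun x => ?_⟩
    obtain ⟨hm⟩ := htm x
    refine ⟨outputs_conv rfl rfl ?_ hm⟩
    have f1 := hle x
    have f2 : p1.eval (sz x) ≤ p1.eval (sz x + 2 ^ x.2.length) := eval_mono p1 (Nat.le_add_right _ _)
    have f3 : (pd.eval (b.eval (sz x + 2 ^ x.2.length)) + 2) * sz x.2 ≤
      (pd.eval (b.eval (sz x + 2 ^ x.2.length)) + 2) * (sz x + 2 ^ x.2.length) :=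
      Nat.mul_le_mul_left _ (f1.trans (Nat.le_add_right _ _))
    have f4 : 0 < 2 ^ x.2.length := by positivity
    change _ ≤ Polynomial.eval (sz x + 2 ^ x.2.length) _
    simp only [Polynomial.eval_add, Polynomial.eval_mul, Polynomial.eval_C, Polynomial.eval_comp,
      Polynomial.eval_X]
    omega

end Pool.Agent.H580R3.BF
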