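import Mathlib

/-!
# The geometry behind the reduction, in abstract form
-/

set_option autoImplicit false

namespace Pool.Agent.H580R3.BF.Geo

open Finset

/-- The data of the construction: `k` groups of `n` options each, and `q` conflicts between
options of different groups. -/
structure Data where
  /-- number of groups -/
  k : ℕ
  /-- number of options of each group -/
  n : ℕ
  /-- number of conflicts -/
  q : ℕ
  /-- the conflicts -/
  c : ℕ → (ℕ × ℕ) × (ℕ × ℕ)
  /-- compatibility of options -/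
  adj : ℕ → ℕ → Prop
  hk : 2 ≤ k
  hn : 1 ≤ n
  irr : ∀ u, ¬ adj u u
  h1 : ∀ j < q, (c j).1.1 < (c j).2.1
  h1' : ∀ j < q, (c j).2.1 < k
  h2 : ∀ j < q, ¬ adj (c j).1.2 (c j).2.2
  h3 : ∀ i i' u v, i < i' → i' < k → u < n → v < n → ¬ adj u v → ∃ j < q, c j = ((i, u), (i', v))

variable (D : Data)

/-- coefficient of the conflict variable `j` in the constraint of the option `p` -/
noncomputable def co (p : ℕ × ℕ) (j : ℕ) : ℝ :=
  if (D.c j).1 = p then 1 else if (D.c j).2 = p then -1 else 0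

/-- indicator: the conflict `j` involves the option `p` -/
noncomputable def ind (p : ℕ × ℕ) (j : ℕ) : ℝ := if (D.c j).1 = p ∨ (D.c j).2 = p then 1 else 0

/-- the constraint function of the option `p` -/
noncomputable def g (p : ℕ × ℕ) (η : ℝ) (σ : ℕ → ℝ) : ℝ :=
  D.k * ∑ j ∈ range D.q, co D p j * σ j + (1 - D.k * ∑ j ∈ range D.q, ind D p j) * η

/-- the polyhedron -/
def InP (η : ℝ) (t σ : ℕ → ℝ) : Prop :=
  0 ≤ η ∧ ∑ i ∈ range D.k, t i = D.k ∧ (∀ j < D.q, |σ j| ≤ η) ∧
    ∀ i < D.k, ∀ u < D.n, g D (i, u) η σ ≤ t i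

theorem co_mul_le {η : ℝ} {σ : ℕ → ℝ} (p : ℕ × ℕ) (j : ℕ) (h : |σ j| ≤ η) :
    co D p j * σ j ≤ ind D p j * η := by
  have h1 := abs_le.1 h
  unfold co ind
  by_cases a : (D.c j).1 = p
  · simp [a]; linarith
  · by_cases b : (D.c j).2 = p
    · simp [b, a]; linarith
    · simp [a, b]

theorem g_le {η : ℝ} {σ : ℕ → ℝ} (p : ℕ × ℕ) (h : ∀ j < D.q, |σ j| ≤ η) : g D p η σ ≤ η := by
  unfold g
  have h1 : ∑ j ∈ range D.q, co D p j * σ j ≤ ∑ j ∈ range D.q, ind D p j * η :=
    sum_le_sum fun j hj => co_mul_le D p j (h j (mem_range.1 hj))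
  rw [← sum_mul] at h1
  have h2 : (0 : ℝ) ≤ D.k := Nat.cast_nonneg _
  nlinarith [mul_le_mul_of_nonneg_left h1 h2]

theorem g_smul (p : ℕ × ℕ) (η : ℝ) (σ : ℕ → ℝ) (a : ℝ) :
    g D p (a * η) (fun j => a * σ j) = a * g D p η σ := by
  unfold g
  have : ∑ j ∈ range D.q, co D p j * (a * σ j) = a * ∑ j ∈ range D.q, co D p j * σ j := by
    rw [mul_sum]; exact sum_congr rfl fun j _ => by ring
  rw [this]; ring

/-- the options `w` form a clique -/
def Clq (w : ℕ → ℕ) : Prop := ∀ i i', i < i' → i' < D.k → D.adj (w i) (w i')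

theorem no_clique_sum {η : ℝ} {σ : ℕ → ℝ} (hη : 0 ≤ η) (h : ∀ j < D.q, |σ j| ≤ η) (w : ℕ → ℕ)
    (hw : ∀ i < D.k, w i < D.n) (hc : ¬ Clq D w) :
    ∑ i ∈ range D.k, g D (i, w i) η σ ≤ 0 := by
  unfold Clq at hc
  push Not at hc
  obtain ⟨i, i', hii, hi', hadj⟩ := hc
  obtain ⟨j₀, hj₀, hcj⟩ := D.h3 i i' (w i) (w i') hii hi' (hw i (hii.trans hi')) (hw i' hi') hadj
  have hk : (0 : ℝ) ≤ D.k := Nat.cast_nonneg _
  have e1 : ∑ i ∈ range D.k, g D (i, w i) η σ =
      D.k * ∑ j ∈ range D.q, (∑ i ∈ range D.k, (co D (i, w i) j * σ j - ind D (i, w i) j * η)) +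
        D.k * η := by
    unfold g
    rw [sum_add_distrib, ← mul_sum, sum_comm, ← sum_mul, sum_sub_distrib, ← mul_sum,
      sum_comm (s := range D.k) (t := range D.q)]
    simp only [sum_const, card_range, nsmul_eq_mul, mul_one, sum_sub_distrib]
    simp only [← sum_mul]
    ring
  rw [e1]
  have e2 : ∀ j ∈ range D.q, ∑ i ∈ range D.k, (co D (i, w i) j * σ j - ind D (i, w i) j * η) ≤
      if j = j₀ then -2 * η else 0 := by
    intro j hj
    by_cases hjj : j = j₀
    · subst hjj
      rw [if_pos rfl]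
      have e3 : ∀ a ∈ range D.k, (co D (a, w a) j * σ j - ind D (a, w a) j * η) =
          (if a = i then σ j - η else 0) + (if a = i' then - σ j - η else 0) := by
        intro a _
        unfold co ind
        rw [hcj]
        by_cases h1 : a = i
        · subst h1
          have : ¬ a = i' := by omega
          simp [this]
        · by_cases h2 : a = i'
          · subst h2
            have h3 : ¬ (i, w i) = (a, w a) := fun h => h1 (Prod.ext_iff.1 h).1.symm
            simp [h1, h3]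
          · have h3 : ¬ (i, w i) = (a, w a) := fun h => h1 (Prod.ext_iff.1 h).1.symm
            have h4 : ¬ (i', w i') = (a, w a) := fun h => h2 (Prod.ext_iff.1 h).1.symm
            simp [h1, h2, h3, h4]
      rw [sum_congr rfl e3, sum_add_distrib, sum_ite_eq', sum_ite_eq',
        if_pos (mem_range.2 (hii.trans hi')), if_pos (mem_range.2 hi')]
      linarith
    · rw [if_neg hjj]
      refine sum_nonpos fun a _ => ?_
      have := co_mul_le D (a, w a) j (h j (mem_range.1 hj))
      linarith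
  have e4 := sum_le_sum e2
  rw [sum_ite_eq', if_pos (mem_range.2 hj₀)] at e4
  nlinarith [mul_le_mul_of_nonneg_left e4 hk, mul_nonneg hk hη]

/-- **Rays.** If there is no clique then every point of the polyhedron lies on a ray which starts
at a point with `η = 0`. -/
theorem ray (hno : ∀ w : ℕ → ℕ, (∀ i < D.k, w i < D.n) → ¬ Clq D w) {η : ℝ} {t σ : ℕ → ℝ}
    (h : InP D η t σ) :
    ∃ t' : ℕ → ℝ, ∀ a : ℝ, 0 ≤ a →
      InP D (a * η) (fun i => t' i + a * (t i - t' i)) (fun j => a * σ j) := by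
  obtain ⟨hη, hsum, hσ, hg⟩ := h
  have hmax : ∀ i, ∃ u < D.n, ∀ v < D.n, g D (i, v) η σ ≤ g D (i, u) η σ := by
    intro i
    obtain ⟨u, hu, hu'⟩ := exists_max_image (range D.n) (fun u => g D (i, u) η σ)
      ⟨0, mem_range.2 D.hn⟩
    exact ⟨u, mem_range.1 hu, fun v hv => hu' v (mem_range.2 hv)⟩
  choose w hw hw' using hmax
  have hs := no_clique_sum D hη hσ w (fun i _ => hw i) (hno w fun i _ => hw i)
  set s : ℕ → ℝ := fun i => t i - g D (i, w i) η σ with hsdef
  have hs0 : ∀ i < D.k, 0 ≤ s i := fun i hi => by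
    have := hg i hi (w i) (hw i)
    simp only [hsdef]; linarith
  have hk2 : (2 : ℝ) ≤ D.k := by exact_mod_cast D.hk
  have hS : (D.k : ℝ) ≤ ∑ i ∈ range D.k, s i := by
    simp only [hsdef]
    rw [sum_sub_distrib, hsum]; linarith
  set S := ∑ i ∈ range D.k, s i with hSdef
  have hSpos : 0 < S := by linarith
  have hr1 : (D.k : ℝ) / S ≤ 1 := by rw [div_le_one hSpos]; exact hS
  have hr0 : 0 ≤ (D.k : ℝ) / S := div_nonneg (by linarith) hSpos.le
  have ht'sum : ∑ i ∈ range D.k, s i * (D.k / S) = D.k := by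
    rw [← sum_mul, ← hSdef]; field_simp
  refine ⟨fun i => s i * (D.k / S), fun a ha => ⟨mul_nonneg ha hη, ?_, ?_, ?_⟩⟩
  · rw [sum_add_distrib, ← mul_sum, sum_sub_distrib, ht'sum, hsum]; ring
  · intro j hj
    rw [abs_mul, abs_of_nonneg ha]
    exact mul_le_mul_of_nonneg_left (hσ j hj) ha
  · intro i hi u hu
    rw [g_smul]
    have h1 := hw' i u hu
    have h2 := hs0 i hi
    have h3 : s i * (D.k / S) ≤ s i := by nlinarith
    have h4 : 0 ≤ s i * (D.k / S) := mul_nonneg h2 hr0
    have h5 : t i - s i = g D (i, w i) η σ := by simp only [hsdef]; ring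
    nlinarith [mul_le_mul_of_nonneg_left h1 ha, mul_le_mul_of_nonneg_left h3 ha]

/-! ### the face of a clique -/

/-- the values of the conflict variables at the point of a clique -/
noncomputable def sg (w : ℕ → ℕ) (j : ℕ) : ℝ :=
  if (D.c j).1.2 = w (D.c j).1.1 then 1 else if (D.c j).2.2 = w (D.c j).2.1 then -1 else 0

theorem sg_abs (w : ℕ → ℕ) (j : ℕ) : |sg D w j| ≤ 1 := by
  unfold sg
  split_ifs <;> simp

theorem star_mem (w : ℕ → ℕ) : InP D 1 (fun _ => 1) (sg D w) := by
  refine ⟨zero_le_one, by simp, fun j _ => sg_abs D w j, fun i _ u _ => ?_⟩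
  exact g_le D (i, u) fun j _ => sg_abs D w j

/-- the sign of a conflict variable involving a chosen option -/
theorem sg_eq {w : ℕ → ℕ} (hc : Clq D w) {i j : ℕ} (hj : j < D.q) :
    (co D (i, w i) j = 1 → sg D w j = 1) ∧ (co D (i, w i) j = -1 → sg D w j = -1) := by
  unfold co sg
  constructor
  · intro h
    by_cases a : (D.c j).1 = (i, w i)
    · rw [a]; simp
    · rw [if_neg a] at h
      by_cases b : (D.c j).2 = (i, w i)
      · rw [if_pos b] at h; norm_num at h
      · rw [if_neg b] at h; norm_num at h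
  · intro h
    by_cases a : (D.c j).1 = (i, w i)
    · rw [if_pos a] at h; norm_num at h
    · rw [if_neg a] at h
      by_cases b : (D.c j).2 = (i, w i)
      · have hne : ¬ (D.c j).1.2 = w (D.c j).1.1 := by
          intro h'
          have h1 := D.h1 j hj
          have h2 := D.h1' j hj
          have h3 := hc _ _ h1 h2
          apply D.h2 j hj
          rw [h', b]
          rw [b] at h3
          exact h3
        rw [if_neg hne, b]; simp
      · rw [if_neg b] at h; norm_num at h

/-- if the constraints which are tight at the point of the clique are tight then `η = 1` -/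
theorem face_eta {w : ℕ → ℕ} (hc : Clq D w) {η : ℝ} {t σ : ℕ → ℝ}
    (h : InP D η t σ) (ht : ∀ i < D.k, g D (i, w i) 1 (sg D w) = 1 → g D (i, w i) η σ = t i)
    (h1 : ∀ j < D.q, sg D w j = 1 → σ j = η) (h2 : ∀ j < D.q, sg D w j = -1 → -σ j = η) :
    η = 1 ∧ ∀ i < D.k, t i = 1 := by
  have key : ∀ i < D.k, ∀ (η' : ℝ) (σ' : ℕ → ℝ), (∀ j < D.q, sg D w j = 1 → σ' j = η') →
      (∀ j < D.q, sg D w j = -1 → -σ' j = η') → g D (i, w i) η' σ' = η' := by
    intro i _ η' σ' a1 a2
    unfold g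
    have : ∑ j ∈ range D.q, co D (i, w i) j * σ' j = ∑ j ∈ range D.q, ind D (i, w i) j * η' := by
      refine sum_congr rfl fun j hj => ?_
      have hj' := mem_range.1 hj
      obtain ⟨b1, b2⟩ := sg_eq D hc (i := i) hj'
      by_cases c1 : (D.c j).1 = (i, w i)
      · have e : co D (i, w i) j = 1 := by simp [co, c1]
        have e' : ind D (i, w i) j = 1 := by simp [ind, c1]
        rw [e, e', a1 j hj' (b1 e)]
      · by_cases c2 : (D.c j).2 = (i, w i)
        · have e : co D (i, w i) j = -1 := by simp [co, c1, c2]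
          have e' : ind D (i, w i) j = 1 := by simp [ind, c2]
          rw [e, e', ← a2 j hj' (b2 e)]; ring
        · have e : co D (i, w i) j = 0 := by simp [co, c1, c2]
          have e' : ind D (i, w i) j = 0 := by simp [ind, c1, c2]
          rw [e, e']; ring
    rw [this, ← sum_mul]; ring
  have e1 : ∀ i < D.k, t i = η := by
    intro i hi
    rw [← ht i hi (key i hi 1 (sg D w) (fun _ _ h => h) (fun _ _ h => by rw [h]; norm_num))]
    exact key i hi η σ h1 h2
  have e2 : (D.k : ℝ) * η = D.k := by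
    have := h.2.1
    rw [sum_congr rfl (fun i hi => e1 i (mem_range.1 hi))] at this
    simpa using this
  have hk2 : (2 : ℝ) ≤ D.k := by exact_mod_cast D.hk
  have e3 : η = 1 := by
    have : (D.k : ℝ) * (η - 1) = 0 := by linarith
    rcases mul_eq_zero.1 this with h | h
    · linarith
    · linarith
  exact ⟨e3, fun i hi => (e1 i hi).trans e3⟩

/-! ### unboundedness -/

theorem ind_nonneg (p : ℕ × ℕ) (j : ℕ) : 0 ≤ ind D p j := by
  unfold ind; split_ifs <;> norm_num

theorem one_le_deg {i u : ℕ} (hi : i < D.k) (hu : u < D.n) :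
    1 ≤ ∑ j ∈ range D.q, ind D (i, u) j := by
  have hk := D.hk
  obtain ⟨j, hj, hj'⟩ : ∃ j < D.q, ind D (i, u) j = 1 := by
    by_cases h0 : i = 0
    · obtain ⟨j, hj, hj'⟩ := D.h3 i 1 u u (by omega) (by omega) hu hu (D.irr u)
      exact ⟨j, hj, by simp [ind, hj']⟩
    · obtain ⟨j, hj, hj'⟩ := D.h3 0 i u u (by omega) hi hu hu (D.irr u)
      exact ⟨j, hj, by simp [ind, hj']⟩
  calc (1 : ℝ) = ind D (i, u) j := hj'.symm
    _ ≤ _ := single_le_sum (fun j _ => ind_nonneg D (i, u) j) (mem_range.2 hj)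

theorem up_mem (a : ℝ) (ha : 0 ≤ a) : InP D a (fun _ => 1) (fun _ => 0) := by
  refine ⟨ha, by simp, fun j _ => by simpa using ha, fun i hi u hu => ?_⟩
  have h1 := one_le_deg D hi hu
  have hk2 : (2 : ℝ) ≤ D.k := by exact_mod_cast D.hk
  unfold g
  simp only [mul_zero, sum_const_zero]
  have h2 : 1 ≤ (D.k : ℝ) * ∑ j ∈ range D.q, ind D (i, u) j := by nlinarith
  have h3 := mul_nonneg (sub_nonneg.2 h2) ha
  nlinarith

theorem base_mem : InP D 0 (fun i => if i = 0 then (D.k : ℝ) else 0) (fun _ => 0) := by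
  have hk := D.hk
  refine ⟨le_rfl, ?_, fun j _ => by simp, fun i hi u hu => ?_⟩
  · rw [sum_ite_eq' (range D.k) 0 (fun _ => (D.k : ℝ)), if_pos (mem_range.2 (by omega))]
  · unfold g
    simp only [mul_zero, sum_const_zero]
    split_ifs <;> simp

end Pool.Agent.H580R3.BF.Geo
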