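import Pool.Agent.H580R3.BF.Defs
import Pool.Agent.H580R3.BF.Geo

/-!
# The system of inequalities of a graph, and its link with the abstract geometry
-/

set_option autoImplicit false

namespace Pool.Agent.H580R3.BF

open Finset

/-- adjacency of vertices -/
def adjB (E : List (ℕ × ℕ)) (u v : ℕ) : Bool :=
  decide (u ≠ v) && (decide ((u, v) ∈ E) || decide ((v, u) ∈ E))

/-- the conflicts -/
def confl (n k : ℕ) (E : List (ℕ × ℕ)) : List ((ℕ × ℕ) × (ℕ × ℕ)) :=
  (List.range k).flatMap fun i => (List.range k).flatMap fun i' =>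
    (List.range n).flatMap fun u => (List.range n).flatMap fun v =>
      if (decide (i < i') && !(adjB E u v)) = true then [((i, u), (i', v))] else []

theorem mem_confl {n k : ℕ} {E : List (ℕ × ℕ)} {c : (ℕ × ℕ) × (ℕ × ℕ)} :
    c ∈ confl n k E ↔ c.1.1 < c.2.1 ∧ c.2.1 < k ∧ c.1.2 < n ∧ c.2.2 < n ∧
      adjB E c.1.2 c.2.2 = false := by
  unfold confl
  simp only [List.mem_flatMap, List.mem_range]
  constructor
  · rintro ⟨i, hi, i', hi', u, hu, v, hv, h⟩
    split_ifs at h with hc
    · simp only [List.mem_singleton] at h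
      subst h
      simp only [Bool.and_eq_true, decide_eq_true_eq, Bool.not_eq_eq_eq_not, Bool.not_true] at hc
      exact ⟨hc.1, hi', hu, hv, hc.2⟩
    · simp at h
  · rintro ⟨h1, h2, h3, h4, h5⟩
    refine ⟨c.1.1, by omega, c.2.1, h2, c.1.2, h3, c.2.2, h4, ?_⟩
    rw [if_pos (by simp [h1, h5])]
    simp

/-- the number of the conflicts of an option -/
def deg (cf : List ((ℕ × ℕ) × (ℕ × ℕ))) (p : ℕ × ℕ) : ℕ :=
  (cf.filter (fun c => decide (c.1 = p) || decide (c.2 = p))).length

/-- a row -/
def mk (c₀ : ℚ) (a s : List ℚ) (b : ℚ) : List ℚ × ℚ := (c₀ :: (a ++ s), b)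

/-- `-η ≤ 0` -/
def rEta (k q : ℕ) : List ℚ × ℚ :=
  mk (-1) ((List.range k).map fun _ => 0) ((List.range q).map fun _ => 0) 0

/-- `∑ t ≤ k` -/
def rSum (k q : ℕ) : List ℚ × ℚ :=
  mk 0 ((List.range k).map fun _ => 1) ((List.range q).map fun _ => 0) (k : ℚ)

/-- `-∑ t ≤ -k` -/
def rSum' (k q : ℕ) : List ℚ × ℚ :=
  mk 0 ((List.range k).map fun _ => -1) ((List.range q).map fun _ => 0) (-(k : ℚ))

/-- `σ_j - η ≤ 0` -/
def rPos (k q j : ℕ) : List ℚ × ℚ :=
  mk (-1) ((List.range k).map fun _ => 0) ((List.range q).map fun j' => if j' = j then 1 else 0) 0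

/-- `-σ_j - η ≤ 0` -/
def rNeg (k q j : ℕ) : List ℚ × ℚ :=
  mk (-1) ((List.range k).map fun _ => 0) ((List.range q).map fun j' => if j' = j then -1 else 0) 0

/-- the constraint of an option -/
def rOpt (k : ℕ) (cf : List ((ℕ × ℕ) × (ℕ × ℕ))) (p : ℕ × ℕ) : List ℚ × ℚ :=
  mk (-((k * deg cf p - 1 : ℕ) : ℚ)) ((List.range k).map fun i' => if i' = p.1 then -1 else 0)
    (cf.map fun c => if c.1 = p then (k : ℚ) else if c.2 = p then -(k : ℚ) else 0) 0

/-- all the rows -/
def rows (n k : ℕ) (cf : List ((ℕ × ℕ) × (ℕ × ℕ))) : List (List ℚ × ℚ) :=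
  rEta k cf.length :: rSum k cf.length :: rSum' k cf.length ::
    ((List.range cf.length).map (rPos k cf.length) ++ ((List.range cf.length).map (rNeg k cf.length) ++
      (List.range k).flatMap fun i => (List.range n).map fun u => rOpt k cf (i, u)))

/-- the system of inequalities of a graph -/
abbrev sys (n k : ℕ) (E : List (ℕ × ℕ)) : Sys :=
  (1 + k + (confl n k E).length, rows n k (confl n k E))

/-- extension of a vector by zeros -/
noncomputable def X {d : ℕ} (x : Fin d → ℝ) (j : ℕ) : ℝ := if h : j < d then x ⟨j, h⟩ else 0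

theorem val_eq_range {d : ℕ} (a : List ℚ) (x : Fin d → ℝ) :
    val a x = ∑ j ∈ range d, ((a.getD j 0 : ℚ) : ℝ) * X x j := by
  rw [val, Finset.sum_range]
  refine sum_congr rfl fun j _ => ?_
  unfold X
  rw [dif_pos j.2]

theorem val_mk {k q : ℕ} (c₀ : ℚ) (a s : List ℚ) (b : ℚ) (ha : a.length = k) 
    (x : Fin (1 + k + q) → ℝ) :
    val (mk c₀ a s b).1 x = c₀ * X x 0 + ∑ i ∈ range k, ((a.getD i 0 : ℚ) : ℝ) * X x (1 + i) +
      ∑ j ∈ range q, ((s.getD j 0 : ℚ) : ℝ) * X x (1 + k + j) := by
  rw [val_eq_range, sum_range_add, sum_range_add]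
  congr 1
  · congr 1
    · simp [mk]
    · refine sum_congr rfl fun i hi => ?_
      have hi' := mem_range.1 hi
      congr 2
      unfold mk
      simp only [add_comm 1 i, List.getD_cons_succ]
      rw [List.getD_append _ _ _ _ (by omega)]
  · refine sum_congr rfl fun j _ => ?_
    congr 2
    unfold mk
    simp only
    rw [show 1 + k + j = (k + j) + 1 by omega, List.getD_cons_succ,
      List.getD_append_right _ _ _ _ (by omega), ha, Nat.add_sub_cancel_left]

theorem getD_map_range (f : ℕ → ℚ) {m j : ℕ} (hj : j < m) :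
    ((List.range m).map f).getD j 0 = f j := by
  rw [List.getD_eq_getElem _ _ (by simpa using hj)]
  simp

theorem val_rEta {k q : ℕ} (x : Fin (1 + k + q) → ℝ) : val (rEta k q).1 x = -X x 0 := by
  unfold rEta
  rw [val_mk _ _ _ _ (by simp)]
  rw [sum_eq_zero (s := range k), sum_eq_zero (s := range q)]
  · simp
  · intro j hj; rw [getD_map_range _ (mem_range.1 hj)]; simp
  · intro j hj; rw [getD_map_range _ (mem_range.1 hj)]; simp

theorem val_rSum {k q : ℕ} (x : Fin (1 + k + q) → ℝ) :
    val (rSum k q).1 x = ∑ i ∈ range k, X x (1 + i) := by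
  unfold rSum
  rw [val_mk _ _ _ _ (by simp)]
  rw [sum_eq_zero (s := range q)]
  · rw [sum_congr rfl (g := fun i => X x (1 + i))]
    · simp
    · intro j hj; rw [getD_map_range _ (mem_range.1 hj)]; simp
  · intro j hj; rw [getD_map_range _ (mem_range.1 hj)]; simp

theorem val_rSum' {k q : ℕ} (x : Fin (1 + k + q) → ℝ) :
    val (rSum' k q).1 x = -∑ i ∈ range k, X x (1 + i) := by
  unfold rSum'
  rw [val_mk _ _ _ _ (by simp)]
  rw [sum_eq_zero (s := range q)]
  · rw [sum_congr rfl (g := fun i => -X x (1 + i))]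
    · simp
    · intro j hj; rw [getD_map_range _ (mem_range.1 hj)]; simp
  · intro j hj; rw [getD_map_range _ (mem_range.1 hj)]; simp

theorem val_rPos {k q j : ℕ} (hj : j < q) (x : Fin (1 + k + q) → ℝ) :
    val (rPos k q j).1 x = X x (1 + k + j) - X x 0 := by
  unfold rPos
  rw [val_mk _ _ _ _ (by simp)]
  rw [sum_eq_zero (s := range k)]
  · rw [sum_congr rfl (g := fun i => if i = j then X x (1 + k + i) else 0)]
    · rw [sum_ite_eq', if_pos (mem_range.2 hj)]; push_cast; ring
    · intro i hi; rw [getD_map_range _ (mem_range.1 hi)]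
      split_ifs <;> simp
  · intro j hj; rw [getD_map_range _ (mem_range.1 hj)]; simp

theorem val_rNeg {k q j : ℕ} (hj : j < q) (x : Fin (1 + k + q) → ℝ) :
    val (rNeg k q j).1 x = -X x (1 + k + j) - X x 0 := by
  unfold rNeg
  rw [val_mk _ _ _ _ (by simp)]
  rw [sum_eq_zero (s := range k)]
  · rw [sum_congr rfl (g := fun i => if i = j then -X x (1 + k + i) else 0)]
    · rw [sum_ite_eq' (range q) j (fun i => -X x (1 + k + i)), if_pos (mem_range.2 hj)]
      push_cast; ring
    · intro i hi; rw [getD_map_range _ (mem_range.1 hi)]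
      split_ifs <;> simp
  · intro j hj; rw [getD_map_range _ (mem_range.1 hj)]; simp

/-- the data of the abstract construction -/
def data (n k : ℕ) (E : List (ℕ × ℕ)) (hk : 2 ≤ k) (hn : 1 ≤ n) : Geo.Data where
  k := k
  n := n
  q := (confl n k E).length
  c := fun j => (confl n k E).getD j ((0, 0), (0, 0))
  adj := fun u v => adjB E u v = true
  hk := hk
  hn := hn
  irr := fun u => by simp [adjB]
  h1 := fun j hj => by
    rw [List.getD_eq_getElem _ _ hj]
    exact (mem_confl.1 (List.getElem_mem hj)).1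
  h1' := fun j hj => by
    rw [List.getD_eq_getElem _ _ hj]
    exact (mem_confl.1 (List.getElem_mem hj)).2.1
  h2 := fun j hj => by
    rw [List.getD_eq_getElem _ _ hj, (mem_confl.1 (List.getElem_mem hj)).2.2.2.2]
    simp
  h3 := fun i i' u v hii hi' hu hv h => by
    have : ((i, u), (i', v)) ∈ confl n k E :=
      mem_confl.2 ⟨hii, hi', hu, hv, by simpa using h⟩
    obtain ⟨j, hj, hj'⟩ := List.getElem_of_mem this
    exact ⟨j, hj, by rw [List.getD_eq_getElem _ _ hj, hj']⟩

theorem length_filter_eq (l : List ((ℕ × ℕ) × (ℕ × ℕ))) (P : (ℕ × ℕ) × (ℕ × ℕ) → Bool)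
    (d : (ℕ × ℕ) × (ℕ × ℕ)) :
    (((l.filter P).length : ℕ) : ℝ) =
      ∑ j ∈ range l.length, if P (l.getD j d) = true then (1 : ℝ) else 0 := by
  induction l with
  | nil => simp
  | cons a l ih =>
    rw [List.length_cons, sum_range_succ', List.filter_cons]
    simp only [List.getD_cons_succ, List.getD_cons_zero]
    rw [← ih]
    split_ifs <;> simp

variable {n k : ℕ} {E : List (ℕ × ℕ)} (hk : 2 ≤ k) (hn : 1 ≤ n)

theorem deg_eq (p : ℕ × ℕ) : ((deg (confl n k E) p : ℕ) : ℝ) =
    ∑ j ∈ range (data n k E hk hn).q, Geo.ind (data n k E hk hn) p j := by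
  unfold deg
  rw [length_filter_eq _ _ ((0, 0), (0, 0))]
  refine sum_congr rfl fun j _ => ?_
  unfold Geo.ind
  simp only [Bool.or_eq_true, decide_eq_true_eq]
  rfl

theorem val_rOpt {i u : ℕ} (hi : i < k) (hu : u < n)
    (x : Fin (1 + k + (confl n k E).length) → ℝ) :
    val (rOpt k (confl n k E) (i, u)).1 x = Geo.g (data n k E hk hn) (i, u) (X x 0)
      (fun j => X x (1 + k + j)) - X x (1 + i) := by
  unfold rOpt
  rw [val_mk _ _ _ _ (by simp)]
  have h1 : ∑ i' ∈ range k, ((((List.range k).map fun i' => if i' = (i, u).1 then (-1 : ℚ) else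
      0).getD i' 0 : ℚ) : ℝ) * X x (1 + i') = - X x (1 + i) := by
    rw [sum_congr rfl (g := fun i' => if i' = i then -X x (1 + i') else 0)]
    · rw [sum_ite_eq' (range k) i (fun i' => -X x (1 + i')), if_pos (mem_range.2 hi)]
    · intro i' hi'
      rw [getD_map_range _ (mem_range.1 hi')]
      split_ifs <;> simp
  have h2 : 1 ≤ deg (confl n k E) (i, u) := by
    have := Geo.one_le_deg (data n k E hk hn) hi hu
    rw [← deg_eq hk hn] at this
    exact_mod_cast this
  have h3 : 1 ≤ k * deg (confl n k E) (i, u) := Nat.mul_pos (by omega) h2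
  have h4 : ∑ j ∈ range (confl n k E).length, ((((confl n k E).map fun c =>
      if c.1 = (i, u) then (k : ℚ) else if c.2 = (i, u) then -(k : ℚ) else 0).getD j 0 : ℚ) : ℝ) *
        X x (1 + k + j) = k * ∑ j ∈ range (data n k E hk hn).q,
          Geo.co (data n k E hk hn) (i, u) j * X x (1 + k + j) := by
    rw [mul_sum]
    refine sum_congr rfl fun j hj => ?_
    have hj' : j < (confl n k E).length := mem_range.1 hj
    rw [List.getD_eq_getElem _ _ (by simpa using hj'), List.getElem_map, ← mul_assoc]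
    congr 1
    have e : (data n k E hk hn).c j = (confl n k E)[j] := List.getD_eq_getElem _ _ hj'
    unfold Geo.co
    rw [e]
    by_cases a : (confl n k E)[j].1 = (i, u)
    · rw [if_pos a, if_pos a]; simp
    · rw [if_neg a, if_neg a]
      by_cases b : (confl n k E)[j].2 = (i, u)
      · rw [if_pos b, if_pos b]; simp
      · rw [if_neg b, if_neg b]; simp
  rw [h1, h4]
  unfold Geo.g
  rw [← deg_eq hk hn]
  push_cast [Nat.cast_sub h3]
  have : ((data n k E hk hn).k : ℝ) = k := rfl
  rw [this]
  ring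

theorem rSum_snd {k q : ℕ} : (rSum k q).2 = k := rfl
theorem rSum'_snd {k q : ℕ} : (rSum' k q).2 = -k := rfl

/-- membership in the polyhedron -/
theorem mem_poly_iff (x : Fin (1 + k + (confl n k E).length) → ℝ) :
    x ∈ poly (sys n k E) ↔ Geo.InP (data n k E hk hn) (X x 0) (fun i => X x (1 + i))
      (fun j => X x (1 + k + j)) := by
  have hq : (data n k E hk hn).q = (confl n k E).length := rfl
  have hk' : (data n k E hk hn).k = k := rfl
  have hn' : (data n k E hk hn).n = n := rfl
  unfold Geo.InP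
  rw [hk', hn', hq]
  constructor
  · intro h
    have h : ∀ r ∈ rows n k (confl n k E), val r.1 x ≤ (r.2 : ℝ) := h
    have a1 := h (rEta k (confl n k E).length) (by simp [rows])
    have a2 := h (rSum k (confl n k E).length) (by simp [rows])
    have a3 := h (rSum' k (confl n k E).length) (by simp [rows])
    rw [val_rEta] at a1
    rw [val_rSum, rSum_snd] at a2
    rw [val_rSum', rSum'_snd] at a3
    push_cast at a2 a3
    refine ⟨?_, by linarith, ?_, ?_⟩
    · simp only [rEta, mk, Rat.cast_zero] at a1; linarith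
    · intro j hj
      have b1 := h (rPos k (confl n k E).length j) (by
        simp only [rows, List.mem_cons, List.mem_append, List.mem_map, List.mem_range]
        exact Or.inr (Or.inr (Or.inr (Or.inl ⟨j, hj, rfl⟩))))
      have b2 := h (rNeg k (confl n k E).length j) (by
        simp only [rows, List.mem_cons, List.mem_append, List.mem_map, List.mem_range]
        exact Or.inr (Or.inr (Or.inr (Or.inr (Or.inl ⟨j, hj, rfl⟩)))))
      rw [val_rPos hj] at b1
      rw [val_rNeg hj] at b2
      simp only [rPos, rNeg, mk, Rat.cast_zero] at b1 b2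
      rw [abs_le]
      constructor <;> linarith
    · intro i hi u hu
      have b1 := h (rOpt k (confl n k E) (i, u)) (by
        simp only [rows, List.mem_cons, List.mem_append, List.mem_map, List.mem_range,
          List.mem_flatMap]
        exact Or.inr (Or.inr (Or.inr (Or.inr (Or.inr ⟨i, hi, u, hu, rfl⟩)))))
      rw [val_rOpt hk hn hi hu] at b1
      simp only [rOpt, mk, Rat.cast_zero] at b1
      linarith
  · rintro ⟨h1, h2, h3, h4⟩ r hr
    have hr : r ∈ rows n k (confl n k E) := hr
    simp only [rows, List.mem_cons, List.mem_append, List.mem_map, List.mem_range,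
      List.mem_flatMap] at hr
    rcases hr with rfl | rfl | rfl | ⟨j, hj, rfl⟩ | ⟨j, hj, rfl⟩ | ⟨i, hi, u, hu, rfl⟩
    · refine (val_rEta x).le.trans ?_
      simp only [rEta, mk, Rat.cast_zero]; linarith
    · refine (val_rSum x).le.trans ?_
      rw [rSum_snd, h2]; push_cast; exact le_rfl
    · refine (val_rSum' x).le.trans ?_
      rw [rSum'_snd, h2]; push_cast; exact le_rfl
    · refine (val_rPos hj x).le.trans ?_
      simp only [rPos, mk, Rat.cast_zero]
      linarith [(abs_le.1 (h3 j hj)).2]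
    · refine (val_rNeg hj x).le.trans ?_
      simp only [rNeg, mk, Rat.cast_zero]
      linarith [(abs_le.1 (h3 j hj)).1]
    · refine (val_rOpt hk hn hi hu x).le.trans ?_
      simp only [rOpt, mk, Rat.cast_zero]
      linarith [h4 i hi u hu]

end Pool.Agent.H580R3.BF
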