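import Pool.Agent.H580R3.BF.PolySys
import Pool.Agent.H580R3.Clock2

/-!
# The algorithm for cliques
-/

set_option autoImplicit false

namespace Pool.Agent.H580R3.BF

open Turing Pool.Agent.NPC

/-- the decision from the result of the clocked run -/
def check (o : Option Hasse) : Bool :=
  match o with
  | none => true
  | some o => o.1.any fun l => !(decide (0 ∈ l))

theorem poly_check : NPC.Poly check := by
  refine (NPC.Poly.optCases (o := fun x : Option Hasse => x) (g := fun _ => true)
    (h := fun _ (o : Hasse) => o.1.any fun l => !(decide (0 ∈ l))) NPC.Poly.id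
    (NPC.Poly.const true) ?_).congr fun o => by cases o <;> rfl
  refine NPC.Poly.any (p := fun _ (l : List ℕ) => !(decide (0 ∈ l)))
    (NPC.Poly.fst (NPC.Poly.snd NPC.Poly.id)) ?_
  exact NPC.Poly.not ((NPC.Poly.decide_mem (NPC.Poly.const 0) (NPC.Poly.snd NPC.Poly.id)).congr
    fun _ => decide_eq_decide.2 Iff.rfl)

/-- the main case -/
def ok (x : Inst) : Bool := decide (2 ≤ kk x) && decide (1 ≤ nn x)

theorem poly_ok : NPC.Poly ok :=
  NPC.Poly.and (NPC.Poly.decide_le (NPC.Poly.const 2) uk.toPoly)
    (NPC.Poly.decide_le (NPC.Poly.const 1) un.toPoly)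

/-- the easy case -/
def easy (x : Inst) : Bool := decide (kk x = 0) || (decide (kk x = 1) && decide (1 ≤ nn x))

theorem poly_easy : NPC.Poly easy :=
  NPC.Poly.or (NPC.Poly.decide_eq uk.toPoly (NPC.Poly.const 0))
    (NPC.Poly.and (NPC.Poly.decide_eq uk.toPoly (NPC.Poly.const 1))
      (NPC.Poly.decide_le (NPC.Poly.const 1) un.toPoly))

theorem easy_iff (x : Inst) (h : ok x = false) :
    easy x = true ↔ ∃ S, (graph x.1).IsNClique (kk x) S := by
  unfold ok at h
  unfold easy
  simp only [Bool.and_eq_false_iff, decide_eq_false_iff_not] at h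
  simp only [Bool.or_eq_true, Bool.and_eq_true, decide_eq_true_eq]
  constructor
  · rintro (h0 | ⟨h1, h2⟩)
    · rw [h0]; exact ⟨∅, by simp⟩
    · rw [h1]
      exact ⟨{⟨0, h2⟩}, SimpleGraph.isNClique_one.2 ⟨_, rfl⟩⟩
  · rintro ⟨S, hS⟩
    have hc := hS.card_eq
    by_cases hk : kk x = 0
    · exact Or.inl hk
    · have hne : S.Nonempty := by
        rw [← Finset.card_pos]; omega
      obtain ⟨v, -⟩ := hne
      have hv : 1 ≤ nn x := Nat.lt_of_le_of_lt (Nat.zero_le _) v.2
      refine Or.inr ⟨by omega, hv⟩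

theorem ok_of_ne {x : Inst} (h : toT (ok x) ≠ T.nil) : 2 ≤ kk x ∧ 1 ≤ nn x := by
  have : ok x = true := by
    cases h' : ok x with
    | true => rfl
    | false => rw [h'] at h; exact absurd rfl h
  unfold ok at this
  simpa using this

theorem replicate_size (m : ℕ) : m ≤ (toT (List.replicate m ())).size := by
  have h1 := (length_lt_sz (List.replicate m ())).le
  rw [List.length_replicate] at h1
  exact h1

/-- **The algorithm, with a padding.** -/
theorem exists_alg (H : BoundedFacesInPolyTotalTime) :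
    ∃ D : Inst → Bool, NPC.Poly D ∧ ∀ x : Inst, 2 ^ kk x ≤ x.2.2.length →
      (D x = true ↔ ∃ S, (graph x.1).IsNClique (kk x) S) := by
  obtain ⟨f, ⟨tm, ι, κ, p, hp⟩, hf⟩ := H
  have adm : ∀ a : {x : Inst // toT (ok x) ≠ T.nil},
      Admissible (sys (nn a.1) (kk a.1) (ee a.1)) := fun a =>
    ⟨sys_wf _ _ _, sys_unbounded (ok_of_ne a.2).1 (ok_of_ne a.2).2,
      sys_pointed (ok_of_ne a.2).1 (ok_of_ne a.2).2⟩
  let M := fun a : {x : Inst // toT (ok x) ≠ T.nil} => (hp _ (adm a)).some
  let S := fun a : {x : Inst // toT (ok x) ≠ T.nil} => sys (nn a.1) (kk a.1) (ee a.1)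
  let u := fun a : {x : Inst // toT (ok x) ≠ T.nil} =>
    toT (List.replicate (clock p a.1) ())
  let τ := fun a : {x : Inst // toT (ok x) ≠ T.nil} => (M a).steps
  have hcl := Pool.Agent.H580R3.Clock.clocked (t := fun a => toT (S a)) (u := u)
    (f := fun a => f (S a)) tm ι κ τ (fun a => (M a).evals_in_steps)
  have hin : PC (fun a : {x : Inst // toT (ok x) ≠ T.nil} => bits a.1)
      (fun a => (T.node (toT (S a)) (u a)).enc) (fun a => a) :=
    PC.restrict (NPC.Poly.node (poly_sys.toT') (NPC.Poly.toT' (uclock p)))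
      (fun x => toT (ok x) ≠ T.nil)
  have hrun : PC (fun a : {x : Inst // toT (ok x) ≠ T.nil} => bits a.1)
      (bits : Option Hasse → List Bool)
      (fun a => if τ a ≤ (u a).size then some (f (S a)) else none) :=
    PC.comp (f := fun a : {x : Inst // toT (ok x) ≠ T.nil} => a) hcl hin
  have hmain : PC (fun a : {x : Inst // toT (ok x) ≠ T.nil} => bits a.1)
      (bits : Bool → List Bool)
      (fun a => check (if τ a ≤ (u a).size then some (f (S a)) else none)) :=
    PC.comp poly_check hrun
  have hall := PC.dite (f := fun x => toT (ok x)) (poly_ok) (PC.restrict poly_easy _) hmain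
  refine ⟨_, hall, fun x hx => ?_⟩
  by_cases hx0 : toT (ok x) = T.nil
  · rw [dif_pos hx0]
    refine easy_iff x ?_
    cases h' : ok x with
    | false => rfl
    | true => rw [h'] at hx0; cases hx0
  · rw [dif_neg hx0]
    obtain ⟨hk, hn⟩ := ok_of_ne hx0
    have ho := hf _ (adm ⟨x, hx0⟩)
    rw [← not_noClq_iff]
    by_cases hno : NoClq x.1.1.length (kk x) x.1.2
    · refine ⟨fun h => ?_, fun h => absurd hno h⟩
      exfalso
      have e1 : (f (S ⟨x, hx0⟩)).1.length ≤ x.2.2.length :=
        (length_le hk hn hno ho).trans hx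
      have e2 := sz_out_le ho e1
      have e3 : τ ⟨x, hx0⟩ ≤ (u ⟨x, hx0⟩).size := by
        refine (M ⟨x, hx0⟩).steps_le_m.trans (le_trans ?_ (replicate_size _))
        unfold clock
        exact eval_mono p (Nat.add_le_add_left e2 _)
      simp only [if_pos e3] at h
      unfold check at h
      simp only [List.any_eq_true, Bool.not_eq_true', decide_eq_false_iff_not] at h
      obtain ⟨l, hl, hl0⟩ := h
      obtain ⟨F, hF, hFt⟩ := (ho.2.2.1 {i | i ∈ l}).1 ⟨l, hl, rfl⟩
      have : 0 ∈ {i | i ∈ l} := by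
        rw [hFt]
        exact zero_mem_tight hk hn hno hF
      exact hl0 this
    · refine ⟨fun _ => hno, fun _ => ?_⟩
      unfold check
      split
      · rfl
      · rename_i o ho'
        have ho'' : o = f (S ⟨x, hx0⟩) := by
          split_ifs at ho' with hc
          · exact (Option.some.inj ho').symm
        subst ho''
        obtain ⟨F, hF, hF0⟩ := exists_bface hk hn hno
        obtain ⟨l, hl, hl'⟩ := (ho.2.2.1 (tight _ F)).2 ⟨F, hF, rfl⟩
        rw [List.any_eq_true]
        refine ⟨l, hl, ?_⟩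
        simp only [Bool.not_eq_true', decide_eq_false_iff_not]
        intro h0
        apply hF0
        rw [hl']
        exact h0

end Pool.Agent.H580R3.BF
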