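import Pool.Agent.H580R3.BF.Bound

/-!
# The system of inequalities is computable in polynomial time
-/

set_option autoImplicit false

namespace Pool.Agent.H580R3.BF

open Pool.Agent.NPC

namespace PP

variable {α β : Type} [TEnc α] [TEnc β]

/-- casts of natural numbers to rational numbers -/
theorem ratCast {m : α → ℕ} (hm : NPC.Poly m) : NPC.Poly (fun a => ((m a : ℕ) : ℚ)) := by
  refine NPC.Poly.of_toT (((NPC.Poly.pair (NPC.Poly.pair (NPC.Poly.const false) hm)
    (NPC.Poly.const (1 : ℕ))).toT').congr fun a => ?_)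
  change _ = toT ((((m a : ℕ) : ℚ)).num, (((m a : ℕ) : ℚ)).den)
  rw [Rat.num_natCast, Rat.den_natCast]
  change _ = T.node (toT (decide ((m a : ℤ) < 0), ((m a : ℤ)).natAbs)) _
  rw [decide_eq_false (by omega), Int.natAbs_natCast]
  rfl

/-- opposites of natural numbers, as rational numbers -/
theorem negCast {m : α → ℕ} (hm : NPC.Poly m) : NPC.Poly (fun a => -((m a : ℕ) : ℚ)) := by
  refine NPC.Poly.of_toT (((NPC.Poly.pair (NPC.Poly.pair (NPC.Poly.decide_lt (NPC.Poly.const 0) hm) hm)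
    (NPC.Poly.const (1 : ℕ))).toT').congr fun a => ?_)
  change _ = toT ((-((m a : ℕ) : ℚ)).num, (-((m a : ℕ) : ℚ)).den)
  rw [Rat.neg_num, Rat.neg_den, Rat.num_natCast, Rat.den_natCast]
  change _ = T.node (toT (decide (-(m a : ℤ) < 0), (-(m a : ℤ)).natAbs)) _
  rw [Int.natAbs_neg, Int.natAbs_natCast]
  have : decide (-(m a : ℤ) < 0) = decide (0 < m a) := by
    rw [decide_eq_decide]; omega
  rw [this]
  rfl

end PP

/-- the instances: the graph and `k` in unary, and a padding -/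
abbrev Inst : Type := Gr × List Unit × List Unit

/-- number of vertices -/
def nn (x : Inst) : ℕ := x.1.1.length
/-- the size of the clique -/
def kk (x : Inst) : ℕ := x.2.1.length
/-- the edges -/
def ee (x : Inst) : List (ℕ × ℕ) := x.1.2

theorem uk : UPoly kk := UPoly.length (NPC.Poly.fst (NPC.Poly.snd NPC.Poly.id))
theorem un : UPoly nn := UPoly.length (NPC.Poly.fst (NPC.Poly.fst NPC.Poly.id))
theorem pe : NPC.Poly ee := NPC.Poly.snd (NPC.Poly.fst NPC.Poly.id)

section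

variable {α β : Type} [TEnc α] [TEnc β]

theorem poly_adjB {E : α → List (ℕ × ℕ)} {u v : α → ℕ} (hE : NPC.Poly E) (hu : NPC.Poly u) (hv : NPC.Poly v) :
    NPC.Poly (fun a => adjB (E a) (u a) (v a)) :=
  NPC.Poly.and (NPC.Poly.decide_not (NPC.Poly.decide_eq hu hv))
    (NPC.Poly.or
      ((NPC.Poly.decide_mem (NPC.Poly.pair hu hv) hE).congr fun _ => decide_eq_decide.2 Iff.rfl)
      ((NPC.Poly.decide_mem (NPC.Poly.pair hv hu) hE).congr fun _ => decide_eq_decide.2 Iff.rfl))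

theorem poly_confl : NPC.Poly (fun x : Inst => confl (nn x) (kk x) (ee x)) := by
  unfold confl
  refine NPC.Poly.flatMap (F := fun (x : Inst) i => (List.range (kk x)).flatMap fun i' =>
    (List.range (nn x)).flatMap fun u => (List.range (nn x)).flatMap fun v =>
      if (decide (i < i') && !(adjB (ee x) u v)) = true then [((i, u), (i', v))] else [])
    uk.range ?_
  refine NPC.Poly.flatMap (F := fun (p : Inst × ℕ) i' =>
    (List.range (nn p.1)).flatMap fun u => (List.range (nn p.1)).flatMap fun v =>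
      if (decide (p.2 < i') && !(adjB (ee p.1) u v)) = true then [((p.2, u), (i', v))] else [])
    (uk.comp (NPC.Poly.fst NPC.Poly.id)).range ?_
  refine NPC.Poly.flatMap (F := fun (p : (Inst × ℕ) × ℕ) u =>
    (List.range (nn p.1.1)).flatMap fun v =>
      if (decide (p.1.2 < p.2) && !(adjB (ee p.1.1) u v)) = true then [((p.1.2, u), (p.2, v))]
        else [])
    (un.comp (NPC.Poly.fst (NPC.Poly.fst NPC.Poly.id))).range ?_
  refine NPC.Poly.flatMap (F := fun (p : ((Inst × ℕ) × ℕ) × ℕ) v =>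
      if (decide (p.1.1.2 < p.1.2) && !(adjB (ee p.1.1.1) p.2 v)) = true then
        [((p.1.1.2, p.2), (p.1.2, v))] else [])
    (un.comp (NPC.Poly.fst (NPC.Poly.fst (NPC.Poly.fst NPC.Poly.id)))).range ?_
  have hx : NPC.Poly (fun p : (((Inst × ℕ) × ℕ) × ℕ) × ℕ => p.1.1.1.1) :=
    NPC.Poly.fst (NPC.Poly.fst (NPC.Poly.fst (NPC.Poly.fst NPC.Poly.id)))
  have hi : NPC.Poly (fun p : (((Inst × ℕ) × ℕ) × ℕ) × ℕ => p.1.1.1.2) :=
    NPC.Poly.snd (NPC.Poly.fst (NPC.Poly.fst (NPC.Poly.fst NPC.Poly.id)))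
  have hi' : NPC.Poly (fun p : (((Inst × ℕ) × ℕ) × ℕ) × ℕ => p.1.1.2) :=
    NPC.Poly.snd (NPC.Poly.fst (NPC.Poly.fst NPC.Poly.id))
  have hu : NPC.Poly (fun p : (((Inst × ℕ) × ℕ) × ℕ) × ℕ => p.1.2) := NPC.Poly.snd (NPC.Poly.fst NPC.Poly.id)
  have hv : NPC.Poly (fun p : (((Inst × ℕ) × ℕ) × ℕ) × ℕ => p.2) := NPC.Poly.snd NPC.Poly.id
  refine NPC.Poly.ite (NPC.Poly.decide_bool (NPC.Poly.and (NPC.Poly.decide_lt hi hi')
    (NPC.Poly.not (poly_adjB (pe.comp hx) hu hv)))) ?_ (NPC.Poly.const _)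
  exact NPC.Poly.cons (NPC.Poly.pair (NPC.Poly.pair hi hu) (NPC.Poly.pair hi' hv)) (NPC.Poly.const _)

theorem poly_deg {cf : α → List ((ℕ × ℕ) × (ℕ × ℕ))} {p : α → ℕ × ℕ} (hcf : NPC.Poly cf)
    (hp : NPC.Poly p) : NPC.Poly (fun a => deg (cf a) (p a)) := by
  refine NPC.Poly.length (NPC.Poly.filter (p := fun a c => decide (c.1 = p a) || decide (c.2 = p a)) hcf ?_)
  exact NPC.Poly.or (NPC.Poly.decide_eq (NPC.Poly.fst (NPC.Poly.snd NPC.Poly.id)) (hp.comp (NPC.Poly.fst NPC.Poly.id)))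
    (NPC.Poly.decide_eq (NPC.Poly.snd (NPC.Poly.snd NPC.Poly.id)) (hp.comp (NPC.Poly.fst NPC.Poly.id)))

theorem poly_mk {c₀ b : α → ℚ} {a s : α → List ℚ} (hc : NPC.Poly c₀) (ha : NPC.Poly a) (hs : NPC.Poly s)
    (hb : NPC.Poly b) : NPC.Poly (fun x => mk (c₀ x) (a x) (s x) (b x)) :=
  NPC.Poly.pair (NPC.Poly.cons hc (NPC.Poly.append ha hs)) hb

theorem poly_constMap {k : α → ℕ} (hk : UPoly k) (c : ℚ) :
    NPC.Poly (fun a => (List.range (k a)).map fun _ => c) :=
  NPC.Poly.map (F := fun _ _ => c) hk.range (NPC.Poly.const _)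

theorem poly_indMap {k i : α → ℕ} (hk : UPoly k) (hi : NPC.Poly i) (c : ℚ) :
    NPC.Poly (fun a => (List.range (k a)).map fun j => if j = i a then c else 0) :=
  NPC.Poly.map (F := fun a j => if j = i a then c else 0) hk.range
    (NPC.Poly.ite (NPC.Poly.decide_eq (NPC.Poly.snd NPC.Poly.id) (hi.comp (NPC.Poly.fst NPC.Poly.id))) (NPC.Poly.const _)
      (NPC.Poly.const _))

theorem poly_rOpt {k : α → ℕ} {cf : α → List ((ℕ × ℕ) × (ℕ × ℕ))} {p : α → ℕ × ℕ}
    (hk : UPoly k) (hcf : NPC.Poly cf) (hp : NPC.Poly p) : NPC.Poly (fun a => rOpt (k a) (cf a) (p a)) := by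
  unfold rOpt
  refine poly_mk ?_ ?_ ?_ (NPC.Poly.const _)
  · exact PP.negCast (NPC.Poly.sub (NPC.Poly.mul hk.toPoly (poly_deg hcf hp)) (NPC.Poly.const 1))
  · exact poly_indMap hk (NPC.Poly.fst hp) (-1)
  · refine NPC.Poly.map (F := fun a (c : (ℕ × ℕ) × (ℕ × ℕ)) => if c.1 = p a then ((k a : ℕ) : ℚ) else
      if c.2 = p a then -((k a : ℕ) : ℚ) else 0) hcf ?_
    have hp' : NPC.Poly (fun q : α × ((ℕ × ℕ) × (ℕ × ℕ)) => p q.1) := hp.comp (NPC.Poly.fst NPC.Poly.id)
    have hk' : NPC.Poly (fun q : α × ((ℕ × ℕ) × (ℕ × ℕ)) => k q.1) :=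
      hk.toPoly.comp (NPC.Poly.fst NPC.Poly.id)
    exact NPC.Poly.ite (NPC.Poly.decide_eq (NPC.Poly.fst (NPC.Poly.snd NPC.Poly.id)) hp') (PP.ratCast hk')
      (NPC.Poly.ite (NPC.Poly.decide_eq (NPC.Poly.snd (NPC.Poly.snd NPC.Poly.id)) hp') (PP.negCast hk')
        (NPC.Poly.const _))

end

theorem poly_rows : NPC.Poly (fun x : Inst => rows (nn x) (kk x) (confl (nn x) (kk x) (ee x))) := by
  have hcf := poly_confl
  have uq : UPoly (fun x : Inst => (confl (nn x) (kk x) (ee x)).length) := UPoly.length hcf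
  unfold rows
  refine NPC.Poly.cons ?_ (NPC.Poly.cons ?_ (NPC.Poly.cons ?_ (NPC.Poly.append ?_ (NPC.Poly.append ?_ ?_))))
  · exact poly_mk (NPC.Poly.const _) (poly_constMap uk 0) (poly_constMap uq 0) (NPC.Poly.const _)
  · exact poly_mk (NPC.Poly.const _) (poly_constMap uk 1) (poly_constMap uq 0)
      (PP.ratCast uk.toPoly)
  · exact poly_mk (NPC.Poly.const _) (poly_constMap uk (-1)) (poly_constMap uq 0)
      (PP.negCast uk.toPoly)
  · refine NPC.Poly.map (F := fun (x : Inst) j => rPos (kk x) (confl (nn x) (kk x) (ee x)).length j)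
      uq.range ?_
    have h1 : UPoly (fun p : Inst × ℕ => kk p.1) := uk.comp (NPC.Poly.fst NPC.Poly.id)
    have h2 : UPoly (fun p : Inst × ℕ => (confl (nn p.1) (kk p.1) (ee p.1)).length) :=
      uq.comp (NPC.Poly.fst NPC.Poly.id)
    exact poly_mk (NPC.Poly.const _) (poly_constMap h1 0) (poly_indMap h2 (NPC.Poly.snd NPC.Poly.id) 1)
      (NPC.Poly.const _)
  · refine NPC.Poly.map (F := fun (x : Inst) j => rNeg (kk x) (confl (nn x) (kk x) (ee x)).length j)
      uq.range ?_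
    have h1 : UPoly (fun p : Inst × ℕ => kk p.1) := uk.comp (NPC.Poly.fst NPC.Poly.id)
    have h2 : UPoly (fun p : Inst × ℕ => (confl (nn p.1) (kk p.1) (ee p.1)).length) :=
      uq.comp (NPC.Poly.fst NPC.Poly.id)
    exact poly_mk (NPC.Poly.const _) (poly_constMap h1 0) (poly_indMap h2 (NPC.Poly.snd NPC.Poly.id) (-1))
      (NPC.Poly.const _)
  · refine NPC.Poly.flatMap (F := fun (x : Inst) i => (List.range (nn x)).map fun u =>
      rOpt (kk x) (confl (nn x) (kk x) (ee x)) (i, u)) uk.range ?_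
    refine NPC.Poly.map (F := fun (p : Inst × ℕ) u =>
      rOpt (kk p.1) (confl (nn p.1) (kk p.1) (ee p.1)) (p.2, u))
      (un.comp (NPC.Poly.fst NPC.Poly.id)).range ?_
    have hx : NPC.Poly (fun p : (Inst × ℕ) × ℕ => p.1.1) := NPC.Poly.fst (NPC.Poly.fst NPC.Poly.id)
    exact poly_rOpt (uk.comp hx) (hcf.comp hx)
      (NPC.Poly.pair (NPC.Poly.snd (NPC.Poly.fst NPC.Poly.id)) (NPC.Poly.snd NPC.Poly.id))

theorem poly_sys : NPC.Poly (fun x : Inst => sys (nn x) (kk x) (ee x)) := by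
  unfold sys
  refine NPC.Poly.pair ?_ poly_rows
  exact NPC.Poly.add (NPC.Poly.add (NPC.Poly.const 1) uk.toPoly) (NPC.Poly.length poly_confl)

/-! ### the clock -/

section

variable {α β : Type} [TEnc α] [TEnc β]

theorem upoly_sz {f : α → β} (hf : NPC.Poly f) : UPoly (fun a => sz (f a)) := by
  have key : ∀ (m : ℕ), (fun l : List Unit => () :: l)^[m] [] = List.replicate m () := by
    intro m
    induction m with
    | zero => rfl
    | succ m ih => rw [Function.iterate_succ_apply', ih]; rfl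
  have hsz : ∀ m, sz (List.replicate m ()) = 2 * m + 1 := by
    intro m
    induction m with
    | zero => rfl
    | succ m ih => rw [List.replicate_succ, sz_list_cons, ih]; simp; omega
  obtain ⟨r, hr⟩ := hf.sz_le
  have h1 : PC (bits : α → List Bool) (fun l : List Unit => (toT l).enc)
      (fun a => (fun l : List Unit => () :: l)^[(toT (f a)).size] []) := by
    refine PC.iterate (α := α) (ea := bits) (β := List Unit) (tb := toT)
      (n := fun a => toT (f a)) (x := fun _ => []) (f := fun l => () :: l)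
      hf (NPC.Poly.const []) (NPC.Poly.cons (NPC.Poly.const ()) NPC.Poly.id)
      (Polynomial.C 2 * r + Polynomial.C 1) ?_
    intro a k hk
    rw [key]
    change sz (List.replicate k ()) ≤ _
    have h2 : (toT (f a)).size ≤ r.eval (sz a) := hr a
    rw [hsz]
    simp only [Polynomial.eval_add, Polynomial.eval_mul, Polynomial.eval_C]
    change _ ≤ 2 * r.eval (sz a) + 1
    omega
  exact PC.congr h1 fun a => key _

end

/-- the clock -/
noncomputable def clock (p : Polynomial ℕ) (x : Inst) : ℕ :=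
  p.eval (sz (sys (nn x) (kk x) (ee x)) +
    outB (rows (nn x) (kk x) (confl (nn x) (kk x) (ee x))).length x.2.2.length)

theorem uclock (p : Polynomial ℕ) : UPoly (clock p) := by
  unfold clock outB
  have hw : UPoly (fun x : Inst => x.2.2.length) := UPoly.length (NPC.Poly.snd (NPC.Poly.snd NPC.Poly.id))
  have hR : UPoly (fun x : Inst =>
      (rows (nn x) (kk x) (confl (nn x) (kk x) (ee x))).length) := UPoly.length poly_rows
  refine UPoly.eval (UPoly.add (upoly_sz poly_sys) ?_) p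
  have c : ∀ n : ℕ, UPoly (fun _ : Inst => n) := fun n => UPoly.const n
  exact UPoly.add (UPoly.add (UPoly.add (UPoly.mul hw (UPoly.add (UPoly.mul hR
    (UPoly.add (UPoly.mul (c 4) hR) (c 2))) (c 2))) (c 1))
    (UPoly.add (UPoly.mul (UPoly.mul hw hw) (UPoly.add (UPoly.mul (c 8) hw) (c 4))) (c 1))) (c 1)

end Pool.Agent.H580R3.BF
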